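import Pool.Agent.R261.Eff.Def

namespace R261.Eff

open MeasureTheory Filter Topology Set

lemma q_lt_one {T δ b : ℝ} (hT : 0 < T) (hδ : 0 < δ) (hb : 0 ≤ b) :
    Real.exp (-b - δ * T) < 1 := by
  rw [Real.exp_lt_one_iff]
  have := mul_pos hδ hT
  linarith

/-- shift invariance -/
lemma Sg_shift (T δ b : ℝ) (c g : ℝ → ℝ) (κ t : ℝ) :
    Sg T δ b c (fun x => g x - κ) t = Sg T δ b c g t := by
  unfold Sg
  have h1 : ∀ u v : ℝ, (∫ r in u..v, c r * Real.exp (g r - κ + δ * r))
      = Real.exp (-κ) * ∫ r in u..v, c r * Real.exp (g r + δ * r) := by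
    intro u v
    rw [← intervalIntegral.integral_const_mul]
    congr 1
    ext r
    rw [show g r - κ + δ * r = -κ + (g r + δ * r) by ring, Real.exp_add]
    ring
  rw [h1, h1, show -(g t - κ) - δ * t = κ + (-g t - δ * t) by ring, Real.exp_add]
  have h2 : Real.exp κ * Real.exp (-κ) = 1 := by rw [← Real.exp_add]; simp
  set A := ∫ r in (0 : ℝ)..t, c r * Real.exp (g r + δ * r)
  set B := ∫ r in t..T, c r * Real.exp (g r + δ * r)
  calc Real.exp κ * Real.exp (-g t - δ * t) / (1 - Real.exp (-b - δ * T)) *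
        (Real.exp (-κ) * A + Real.exp (-b - δ * T) * (Real.exp (-κ) * B))
      = (Real.exp κ * Real.exp (-κ)) * (Real.exp (-g t - δ * t) / (1 - Real.exp (-b - δ * T)) *
        (A + Real.exp (-b - δ * T) * B)) := by ring
    _ = _ := by rw [h2, one_mul]

/-- congruence -/
lemma Sg_congr {T δ b : ℝ} {c f g : ℝ → ℝ} (h : ∀ t, 0 ≤ t → t < T → f t = g t) {t : ℝ}
    (ht0 : 0 ≤ t) (ht : t < T) : Sg T δ b c f t = Sg T δ b c g t := by
  unfold Sg
  rw [h t ht0 ht]
  have e1 : (∫ r in (0 : ℝ)..t, c r * Real.exp (f r + δ * r))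
      = ∫ r in (0 : ℝ)..t, c r * Real.exp (g r + δ * r) := by
    refine intervalIntegral.integral_congr fun r hr => ?_
    rw [uIcc_of_le ht0] at hr
    show c r * Real.exp (f r + δ * r) = c r * Real.exp (g r + δ * r)
    rw [h r hr.1 (lt_of_le_of_lt hr.2 ht)]
  have e2 : (∫ r in t..T, c r * Real.exp (f r + δ * r))
      = ∫ r in t..T, c r * Real.exp (g r + δ * r) := by
    refine intervalIntegral.integral_congr_ae ?_
    have : ∀ᵐ r : ℝ, r ≠ T := by
      have := measure_singleton (μ := (volume : Measure ℝ)) T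
      rw [ae_iff]; simp
    filter_upwards [this] with r hr hmem
    rw [uIoc_of_le ht.le] at hmem
    rw [h r (ht0.trans hmem.1.le) (lt_of_le_of_ne hmem.2 hr)]
  rw [e1, e2]

/-- integrability of the integrand -/
lemma int_aux {T δ b : ℝ} (hT : 0 < T) (hδ : 0 < δ) {c : ℝ → ℝ}
    (hc : IntervalIntegrable c volume 0 T) {f : ℝ → ℝ} (hfm : Measurable f)
    (hf : ∀ t, f t ≤ b) :
    IntervalIntegrable (fun r => c r * Real.exp (f r + δ * r)) volume 0 T := by
  rw [intervalIntegrable_iff_integrableOn_Ioc_of_le hT.le] at hc ⊢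
  refine Integrable.mul_bdd (c := Real.exp (b + δ * T)) hc ?_ ?_
  · exact (by fun_prop : Measurable fun r => Real.exp (f r + δ * r)).aestronglyMeasurable
  · rw [ae_restrict_iff' measurableSet_Ioc]
    refine Eventually.of_forall fun r hr => ?_
    rw [Real.norm_eq_abs, abs_of_pos (Real.exp_pos _), Real.exp_le_exp]
    have := hf r
    have := mul_le_mul_of_nonneg_left hr.2 hδ.le
    linarith

lemma int_aux_sub {T δ b : ℝ} (hT : 0 < T) (hδ : 0 < δ) {c : ℝ → ℝ}
    (hc : IntervalIntegrable c volume 0 T) {f : ℝ → ℝ} (hfm : Measurable f)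
    (hf : ∀ t, f t ≤ b) {u v : ℝ} (hu : u ∈ Icc 0 T) (hv : v ∈ Icc 0 T) :
    IntervalIntegrable (fun r => c r * Real.exp (f r + δ * r)) volume u v := by
  refine (int_aux hT hδ hc hfm hf).mono_set ?_
  rw [uIcc_of_le hT.le]
  exact uIcc_subset_Icc hu hv

/-- uniform bound on the partial integrals -/
lemma int_bound {T δ b : ℝ} (hT : 0 < T) (hδ : 0 < δ) {c C : ℝ → ℝ}
    (hc : IntervalIntegrable c volume 0 T)
    (hC : IntervalIntegrable C volume 0 T) (hcC : ∀ t, |c t| ≤ C t)
    {f : ℝ → ℝ} (hfm : Measurable f)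
    (hf : ∀ t, f t ≤ b) {u v : ℝ} (hu : 0 ≤ u) (huv : u ≤ v) (hv : v ≤ T) :
    |∫ r in u..v, c r * Real.exp (f r + δ * r)|
      ≤ ∫ r in (0 : ℝ)..T, C r * Real.exp (b + δ * T) := by
  have hCi : IntervalIntegrable (fun r => C r * Real.exp (b + δ * T)) volume 0 T :=
    hC.mul_const _
  have hC0 : ∀ t, 0 ≤ C t := fun t => (abs_nonneg _).trans (hcC t)
  calc |∫ r in u..v, c r * Real.exp (f r + δ * r)|
      ≤ ∫ r in u..v, |c r * Real.exp (f r + δ * r)| :=
        intervalIntegral.abs_integral_le_integral_abs huv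
    _ ≤ ∫ r in u..v, C r * Real.exp (b + δ * T) := by
        refine intervalIntegral.integral_mono_on huv ?_ ?_ ?_
        · exact (int_aux_sub hT hδ hc hfm hf ⟨hu, huv.trans hv⟩ ⟨hu.trans huv, hv⟩).abs
        · refine hCi.mono_set ?_
          rw [uIcc_of_le hT.le, uIcc_of_le huv]
          exact Icc_subset_Icc hu hv
        · intro r hr
          rw [abs_mul, abs_of_pos (Real.exp_pos _)]
          refine mul_le_mul (hcC r) ?_ (Real.exp_pos _).le (hC0 r)
          rw [Real.exp_le_exp]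
          have := hf r
          have := mul_le_mul_of_nonneg_left (hr.2.trans hv) hδ.le
          linarith
    _ ≤ ∫ r in (0 : ℝ)..T, C r * Real.exp (b + δ * T) := by
        refine intervalIntegral.integral_mono_interval hu huv hv ?_ hCi
        exact Eventually.of_forall fun r => mul_nonneg (hC0 r) (Real.exp_pos _).le

lemma Sg_bound {T δ b : ℝ} (hT : 0 < T) (hδ : 0 < δ) (hb : 0 ≤ b) {c C : ℝ → ℝ}
    (hc : IntervalIntegrable c volume 0 T)
    (hC : IntervalIntegrable C volume 0 T) (hcC : ∀ t, |c t| ≤ C t)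
    {f : ℝ → ℝ} (hfm : Measurable f) (hf0 : ∀ t, 0 ≤ f t)
    (hf : ∀ t, f t ≤ b) {t : ℝ} (ht0 : 0 ≤ t) (ht : t ≤ T) :
    |Sg T δ b c f t| ≤ 1 / (1 - Real.exp (-b - δ * T)) *
      (2 * ∫ r in (0 : ℝ)..T, C r * Real.exp (b + δ * T)) := by
  have hq := q_lt_one hT hδ hb
  unfold Sg
  rw [abs_mul, abs_div, abs_of_pos (Real.exp_pos _), abs_of_pos (by linarith : 0 < 1 - Real.exp (-b - δ * T))]
  have h1 := int_bound hT hδ hc hC hcC hfm hf le_rfl ht0 ht
  have h2 := int_bound hT hδ hc hC hcC hfm hf ht0 ht le_rfl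
  have hM : 0 ≤ ∫ r in (0 : ℝ)..T, C r * Real.exp (b + δ * T) := (abs_nonneg _).trans h1
  refine mul_le_mul ?_ ?_ (abs_nonneg _) (by
    apply div_nonneg zero_le_one; linarith)
  · apply div_le_div_of_nonneg_right _ (by linarith)
    rw [Real.exp_le_one_iff]
    have := hf0 t
    have := mul_nonneg hδ.le ht0
    linarith
  · calc |(∫ r in (0 : ℝ)..t, c r * Real.exp (f r + δ * r)) +
          Real.exp (-b - δ * T) * ∫ r in t..T, c r * Real.exp (f r + δ * r)|
        ≤ |∫ r in (0 : ℝ)..t, c r * Real.exp (f r + δ * r)| +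
          |Real.exp (-b - δ * T) * ∫ r in t..T, c r * Real.exp (f r + δ * r)| := abs_add_le _ _
      _ ≤ (∫ r in (0 : ℝ)..T, C r * Real.exp (b + δ * T)) +
          1 * ∫ r in (0 : ℝ)..T, C r * Real.exp (b + δ * T) := by
          rw [abs_mul, abs_of_pos (Real.exp_pos _)]
          exact add_le_add h1 (mul_le_mul hq.le h2 (abs_nonneg _) zero_le_one)
      _ = _ := by ring

lemma Sg_meas {T δ b : ℝ} (hT : 0 < T) (hδ : 0 < δ) {c : ℝ → ℝ}
    (hc : IntervalIntegrable c volume 0 T)
    {f : ℝ → ℝ} (hfm : Measurable f)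
    (hf : ∀ t, f t ≤ b) :
    AEStronglyMeasurable (Sg T δ b c f) (volume.restrict (Ioc 0 T)) := by
  unfold Sg
  refine AEStronglyMeasurable.mul ?_ ?_
  · exact (by fun_prop : Measurable fun t =>
      Real.exp (-f t - δ * t) / (1 - Real.exp (-b - δ * T))).aestronglyMeasurable
  · have hi := int_aux hT hδ hc hfm hf
    have h1 : ContinuousOn (fun t => ∫ r in (0 : ℝ)..t, c r * Real.exp (f r + δ * r))
        (Ioc 0 T) := by
      have := intervalIntegral.continuousOn_primitive_interval' hi (a := 0) (by simp)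
      rw [uIcc_of_le hT.le] at this
      exact this.mono Ioc_subset_Icc_self
    have h2 : ContinuousOn (fun t => ∫ r in t..T, c r * Real.exp (f r + δ * r))
        (Ioc 0 T) := by
      have := intervalIntegral.continuousOn_primitive_interval' hi (a := T) (by simp)
      rw [uIcc_of_le hT.le] at this
      have h3 := (this.mono Ioc_subset_Icc_self).neg
      refine h3.congr fun t _ => ?_
      simp only [Pi.neg_apply]
      rw [intervalIntegral.integral_symm]
    exact (h1.add (h2.const_mul _)).aestronglyMeasurable measurableSet_Ioc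

/-- convergence of the costs -/
lemma conv {T δ b : ℝ} (hT : 0 < T) (hδ : 0 < δ) (hb : 0 ≤ b) {c w : ℝ → ℝ}
    (hc : IntervalIntegrable c volume 0 T) (hc0 : ∀ t, 0 ≤ c t)
    (hw : IntervalIntegrable w volume 0 T) (hw0 : ∀ t, 0 ≤ w t)
    (e : ℕ → ℝ) (he0 : ∀ n, 0 ≤ e n) (he1 : ∀ n, e n ≤ 1) (he : Tendsto e atTop (𝓝 0))
    (f : ℕ → ℝ → ℝ) (g : ℝ → ℝ) (hfm : ∀ n, Measurable (f n))
    (hf0 : ∀ n t, 0 ≤ f n t) (hfb : ∀ n t, f n t ≤ b)
    (hlim : ∀ᵐ t ∂(volume.restrict (Ioc 0 T)), Tendsto (fun n => f n t) atTop (𝓝 (g t))) :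
    Tendsto (fun n => ∫ t in (0 : ℝ)..T, (w t + e n) * Sg T δ b (fun r => c r + e n) (f n) t) atTop
      (𝓝 (∫ t in (0 : ℝ)..T, w t * Sg T δ b c g t)) := by
  have hq := q_lt_one hT hδ hb
  have hcn : ∀ n, IntervalIntegrable (fun r => c r + e n) volume 0 T := fun n =>
    hc.add intervalIntegrable_const
  have hC : IntervalIntegrable (fun r => c r + 1) volume 0 T := hc.add intervalIntegrable_const
  have hW : IntervalIntegrable (fun r => w r + 1) volume 0 T := hw.add intervalIntegrable_const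
  have hcC : ∀ n t, |c t + e n| ≤ c t + 1 := fun n t => by
    rw [abs_of_nonneg (add_nonneg (hc0 t) (he0 n))]; linarith [he1 n]
  -- convergence of inner integrals
  have hinner : ∀ u v : ℝ, u ∈ Icc 0 T → v ∈ Icc 0 T → u ≤ v →
      Tendsto (fun n => ∫ r in u..v, (c r + e n) * Real.exp (f n r + δ * r)) atTop
        (𝓝 (∫ r in u..v, c r * Real.exp (g r + δ * r))) := by
    intro u v hu hv huv
    refine intervalIntegral.tendsto_integral_filter_of_dominated_convergence
      (fun r => (c r + 1) * Real.exp (b + δ * T)) ?_ ?_ ?_ ?_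
    · refine Eventually.of_forall fun n => ?_
      have := int_aux_sub hT hδ (hcn n) (hfm n) (hfb n) hu hv
      rw [uIoc_of_le huv]
      exact ((intervalIntegrable_iff_integrableOn_Ioc_of_le huv).mp this).aestronglyMeasurable
    · refine Eventually.of_forall fun n => Eventually.of_forall fun r hr => ?_
      rw [uIoc_of_le huv] at hr
      rw [Real.norm_eq_abs, abs_mul, abs_of_pos (Real.exp_pos _)]
      refine mul_le_mul (hcC n r) ?_ (Real.exp_pos _).le (by linarith [hc0 r])
      rw [Real.exp_le_exp]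
      have := hfb n r
      have := mul_le_mul_of_nonneg_left (hr.2.trans hv.2) hδ.le
      linarith
    · refine (hC.mul_const _).mono_set ?_
      rw [uIcc_of_le hT.le]
      exact uIcc_subset_Icc hu hv
    · rw [ae_restrict_iff' measurableSet_Ioc] at hlim
      filter_upwards [hlim] with r hr hmem
      rw [uIoc_of_le huv] at hmem
      have h1 := hr ⟨lt_of_le_of_lt hu.1 hmem.1, hmem.2.trans hv.2⟩
      have h2 : Tendsto (fun n => c r + e n) atTop (𝓝 (c r)) := by
        simpa using he.const_add (c r)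
      refine h2.mul ?_
      exact (Real.continuous_exp.tendsto _).comp (h1.add_const _)
  refine intervalIntegral.tendsto_integral_filter_of_dominated_convergence
    (fun t => (w t + 1) * (1 / (1 - Real.exp (-b - δ * T)) *
      (2 * ∫ r in (0 : ℝ)..T, (c r + 1) * Real.exp (b + δ * T)))) ?_ ?_ ?_ ?_
  · refine Eventually.of_forall fun n => ?_
    rw [uIoc_of_le hT.le]
    refine AEStronglyMeasurable.mul ?_ (Sg_meas hT hδ (hcn n) (hfm n) (hfb n))
    exact ((intervalIntegrable_iff_integrableOn_Ioc_of_le hT.le).mp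
      (hw.add (intervalIntegrable_const (c := e n)))).aestronglyMeasurable
  · refine Eventually.of_forall fun n => Eventually.of_forall fun t ht => ?_
    rw [uIoc_of_le hT.le] at ht
    rw [Real.norm_eq_abs, abs_mul, abs_of_nonneg (add_nonneg (hw0 t) (he0 n))]
    refine mul_le_mul (by linarith [he1 n]) ?_ (abs_nonneg _) (by linarith [hw0 t])
    exact Sg_bound hT hδ hb (hcn n) hC (hcC n) (hfm n) (hf0 n) (hfb n) ht.1.le ht.2
  · exact hW.mul_const _
  · rw [ae_restrict_iff' measurableSet_Ioc] at hlim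
    filter_upwards [hlim] with t ht hmem
    rw [uIoc_of_le hT.le] at hmem
    have h1 := ht hmem
    have h2 : Tendsto (fun n => w t + e n) atTop (𝓝 (w t)) := by
      simpa using he.const_add (w t)
    refine h2.mul ?_
    unfold Sg
    refine Tendsto.mul ?_ ?_
    · refine Tendsto.div_const ?_ _
      exact (Real.continuous_exp.tendsto _).comp (h1.neg.sub_const _)
    · exact (hinner 0 t ⟨le_rfl, hT.le⟩ ⟨hmem.1.le, hmem.2⟩ hmem.1.le).add
        ((hinner t T ⟨hmem.1.le, hmem.2⟩ ⟨hT.le, le_rfl⟩ hmem.2).const_mul _)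

end R261.Eff
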