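import Mathlib

/-! Definitions for the optimal periodic effort problem. -/

namespace R261.Eff

open MeasureTheory

/-- The class `M(T)`: right-continuous non-decreasing `α` with `α 0 = 0` and
`α (t + T) = α t + α T`. -/
structure Cls (T : ℝ) (α : ℝ → ℝ) : Prop where
  mono : Monotone α
  rc : ∀ t, ContinuousWithinAt α (Set.Ici t) t
  zero : α 0 = 0
  per : ∀ t, α (t + T) = α t + α T

/-- The formula for the periodic solution, with the total effort `b` of one period as a separate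
parameter. -/
noncomputable def Sg (T δ b : ℝ) (c α : ℝ → ℝ) (t : ℝ) : ℝ :=
  Real.exp (-α t - δ * t) / (1 - Real.exp (-b - δ * T)) *
    ((∫ r in (0 : ℝ)..t, c r * Real.exp (α r + δ * r)) +
      Real.exp (-b - δ * T) * ∫ r in t..T, c r * Real.exp (α r + δ * r))

/-- The periodic solution `S_α` on `[0,T)`. -/
noncomputable def Sfun (T δ : ℝ) (c α : ℝ → ℝ) (t : ℝ) : ℝ := Sg T δ (α T) c α t

/-- The averaged cost `(1/T) ∫_0^T w S_α`. -/
noncomputable def cost (T δ : ℝ) (c w α : ℝ → ℝ) : ℝ :=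
  (1 / T) * ∫ t in (0 : ℝ)..T, w t * Sfun T δ c α t

/-- `α` is a minimiser with mean effort `η`. -/
def IsOpt (T δ : ℝ) (c w : ℝ → ℝ) (η : ℝ) (α : ℝ → ℝ) : Prop :=
  Cls T α ∧ α T / T = η ∧ ∀ β, Cls T β → β T / T = η → cost T δ c w α ≤ cost T δ c w β

end R261.Eff
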