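import Mathlib

/-! Comparison of two finite cyclic KKT systems (optimal periodic effort). -/

namespace R261.Eff

open Finset

variable {I : Type*} [Fintype I]

/-- A (cyclic) first order optimality system. -/
structure KKT (σ : Equiv.Perm I) (d c w : I → ℝ) (lam : ℝ) (μ Sm Sp Pm Pp : I → ℝ) : Prop where
  mu_nonneg : ∀ i, 0 ≤ μ i
  sp : ∀ i, Sp i = Real.exp (-μ i) * Sm i
  pm : ∀ i, Pm i = Real.exp (-μ i) * Pp i
  sm : ∀ i, Sm (σ i) = d i * Sp i + c i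
  pp : ∀ i, Pp i = d i * Pm (σ i) + w i
  sm_pos : ∀ i, 0 < Sm i
  pp_pos : ∀ i, 0 < Pp i
  lam_pos : 0 < lam
  le : ∀ i, Sp i * Pp i ≤ lam
  eq : ∀ i, 0 < μ i → Sp i * Pp i = lam

lemma KKT.rev {σ : Equiv.Perm I} {d c w : I → ℝ} {lam : ℝ} {μ Sm Sp Pm Pp : I → ℝ}
    (K : KKT σ d c w lam μ Sm Sp Pm Pp) :
    KKT σ⁻¹ (fun i => d (σ⁻¹ i)) (fun i => w (σ⁻¹ i)) (fun i => c (σ⁻¹ i)) lam μ Pp Pm Sp Sm where
  mu_nonneg := K.mu_nonneg
  sp := K.pm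
  pm := K.sp
  sm := fun i => by
    have := K.pp (σ⁻¹ i)
    simpa using this
  pp := fun i => by
    have := K.sm (σ⁻¹ i)
    simpa using this
  sm_pos := K.pp_pos
  pp_pos := K.sm_pos
  lam_pos := K.lam_pos
  le := fun i => by
    have := K.le i
    rw [K.sp i] at this
    rw [K.pm i]
    linarith [this, mul_comm (Real.exp (-μ i) * Pp i) (Sm i),
      mul_right_comm (Real.exp (-μ i)) (Sm i) (Pp i)]
  eq := fun i hi => by
    have := K.eq i hi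
    rw [K.sp i] at this
    rw [K.pm i]
    linarith [this, mul_comm (Real.exp (-μ i) * Pp i) (Sm i),
      mul_right_comm (Real.exp (-μ i)) (Sm i) (Pp i)]

lemma propag (σ : Equiv.Perm I) (d c w : I → ℝ) (hd : ∀ i, 0 < d i) (hc : ∀ i, 0 < c i)
    (hw : ∀ i, 0 < w i) (k : I) (n : ℕ) :
    ∃ D C W : ℝ, 0 < D ∧ 0 < C ∧ 0 < W ∧ ∀ (lam : ℝ) (μ Sm Sp Pm Pp : I → ℝ),
      KKT σ d c w lam μ Sm Sp Pm Pp → (∀ l, 0 < l → l ≤ n → μ ((σ ^ l) k) = 0) →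
      Sm ((σ ^ (n + 1)) k) = D * Sp k + C ∧ Pp k = D * Pm ((σ ^ (n + 1)) k) + W := by
  induction n with
  | zero =>
    refine ⟨d k, c k, w k, hd k, hc k, hw k, ?_⟩
    intro lam μ Sm Sp Pm Pp K _
    simpa using ⟨K.sm k, K.pp k⟩
  | succ n ih =>
    obtain ⟨D, C, W, hD, hC, hW, h⟩ := ih
    set k' := (σ ^ (n + 1)) k with hk'
    have hk2 : (σ ^ (n + 1 + 1)) k = σ k' := by
      rw [hk', pow_succ' σ (n + 1)]; rfl
    refine ⟨D * d k', d k' * C + c k', D * w k' + W, mul_pos hD (hd _),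
      add_pos (mul_pos (hd _) hC) (hc _), add_pos (mul_pos hD (hw _)) hW, ?_⟩
    intro lam μ Sm Sp Pm Pp K hz
    obtain ⟨h1, h2⟩ := h lam μ Sm Sp Pm Pp K (fun l hl hl' => hz l hl (by omega))
    have hz' : μ k' = 0 := hz (n + 1) (by omega) le_rfl
    have e1 := K.sp k'
    have e2 := K.pm k'
    have e3 := K.sm k'
    have e4 := K.pp k'
    rw [hz'] at e1 e2
    simp only [neg_zero, Real.exp_zero, one_mul] at e1 e2
    rw [hk2]
    constructor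
    · rw [e3, e1, h1]; ring
    · rw [h2, e2, e4]; ring

lemma half {σ : Equiv.Perm I} {d c w : I → ℝ} (hd : ∀ i, 0 < d i) (hc : ∀ i, 0 < c i)
    (hw : ∀ i, 0 < w i) {l1 l2 : ℝ} {μ1 Sm1 Sp1 Pm1 Pp1 μ2 Sm2 Sp2 Pm2 Pp2 : I → ℝ}
    (K1 : KKT σ d c w l1 μ1 Sm1 Sp1 Pm1 Pp1) (K2 : KKT σ d c w l2 μ2 Sm2 Sp2 Pm2 Pp2)
    (hl : l2 ≤ l1) (th : ℝ) (hth : 0 < th) (hth2 : th ^ 2 * l1 = l2) (j : I) (hj : 0 < μ1 j) :
    th * Sm1 j ≤ Sm2 j := by
  classical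
  have hl1 := K1.lam_pos
  have hl2 := K2.lam_pos
  have hth1 : th ≤ 1 := by
    by_contra hcon
    push Not at hcon
    have : 1 < th ^ 2 := by nlinarith
    nlinarith
  -- minimal ratio
  obtain ⟨i, hi, hmin⟩ := Finset.exists_min_image (Finset.univ.filter fun i => 0 < μ1 i)
    (fun i => Sm2 i / Sm1 i) ⟨j, by simp [hj]⟩
  simp only [Finset.mem_filter, Finset.mem_univ, true_and] at hi hmin
  suffices hs : th ≤ Sm2 i / Sm1 i by
    have := hmin j hj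
    have h3 := hs.trans this
    rwa [le_div_iff₀ (K1.sm_pos j)] at h3
  by_contra hcon
  push Not at hcon
  set f := Sm2 i / Sm1 i with hf
  have hf0 : 0 < f := div_pos (K2.sm_pos i) (K1.sm_pos i)
  have hfi : Sm2 i = f * Sm1 i := by
    rw [hf, div_mul_cancel₀ _ (K1.sm_pos i).ne']
  -- last active site before i
  have hex : ∃ n : ℕ, 0 < μ1 (((σ⁻¹) ^ (n + 1)) i) ∨ 0 < μ2 (((σ⁻¹) ^ (n + 1)) i) := by
    refine ⟨orderOf (σ⁻¹) - 1, Or.inl ?_⟩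
    have h1 : 0 < orderOf (σ⁻¹) := orderOf_pos _
    rw [Nat.sub_add_cancel h1, pow_orderOf_eq_one]
    simpa using hi
  set n := Nat.find hex with hn
  have hn1 := Nat.find_spec hex
  rw [← hn] at hn1
  set k := ((σ⁻¹) ^ (n + 1)) i with hk
  have hki : (σ ^ (n + 1)) k = i := by
    rw [hk, ← Equiv.Perm.mul_apply, inv_pow, mul_inv_cancel]; rfl
  have hzero : ∀ l, 0 < l → l ≤ n → μ1 ((σ ^ l) k) = 0 ∧ μ2 ((σ ^ l) k) = 0 := by
    intro l hl0 hln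
    have hmn := Nat.find_min hex (m := n - l) (by omega)
    have e : ((σ⁻¹) ^ (n - l + 1)) i = (σ ^ l) k := by
      rw [inv_pow, Equiv.Perm.inv_eq_iff_eq, ← Equiv.Perm.mul_apply, ← pow_add,
        show n - l + 1 + l = n + 1 by omega, hki]
    rw [e] at hmn
    push Not at hmn
    exact ⟨le_antisymm hmn.1 (K1.mu_nonneg _), le_antisymm hmn.2 (K2.mu_nonneg _)⟩
  obtain ⟨D, C, W, hD, hC, hW, hprop⟩ := propag σ d c w hd hc hw k n
  obtain ⟨a1, a2⟩ := hprop _ _ _ _ _ _ K1 (fun l h1 h2 => (hzero l h1 h2).1)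
  obtain ⟨b1, b2⟩ := hprop _ _ _ _ _ _ K2 (fun l h1 h2 => (hzero l h1 h2).2)
  rw [hki] at a1 a2 b1 b2
  -- names
  have hA1 := K1.sm_pos k
  have hA2 := K2.sm_pos k
  have hSp1 : 0 < Sp1 k := by rw [K1.sp k]; exact mul_pos (Real.exp_pos _) hA1
  have hSp2 : 0 < Sp2 k := by rw [K2.sp k]; exact mul_pos (Real.exp_pos _) hA2
  have hPp1 := K1.pp_pos k
  have hPp2 := K2.pp_pos k
  have hb1 := K1.sm_pos i
  have hb2 := K2.sm_pos i
  by_cases h2 : 0 < μ2 k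
  · -- case k active for the second system
    have g1 : Sp1 k * Pp1 k ≤ l1 := K1.le k
    have g2 : Sp2 k * Pp2 k = l2 := K2.eq k h2
    have g3 : Sm1 i * Pm1 i = l1 := by
      have := K1.eq i hi
      rw [K1.sp i] at this
      rw [K1.pm i]; linarith [mul_comm (Real.exp (-μ1 i) * Pp1 i) (Sm1 i),
        mul_right_comm (Real.exp (-μ1 i)) (Sm1 i) (Pp1 i)]
    have g4 : Sm2 i * Pm2 i ≤ l2 := by
      have := K2.le i
      rw [K2.sp i] at this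
      rw [K2.pm i]; linarith [mul_comm (Real.exp (-μ2 i) * Pp2 i) (Sm2 i),
        mul_right_comm (Real.exp (-μ2 i)) (Sm2 i) (Pp2 i)]
    -- system 1: W b1^2 ≤ C D l1 + C W b1
    have e1 : W * Sm1 i ^ 2 ≤ C * D * l1 + C * W * Sm1 i := by
      have q1 : (Sm1 i - C) * Pp1 k ≤ D * l1 := by
        have : (Sm1 i - C) * Pp1 k = D * (Sp1 k * Pp1 k) := by rw [a1]; ring
        rw [this]; exact mul_le_mul_of_nonneg_left g1 hD.le
      have q2 : Sm1 i * ((Sm1 i - C) * Pp1 k) ≤ Sm1 i * (D * l1) :=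
        mul_le_mul_of_nonneg_left q1 hb1.le
      have q3 : Sm1 i * ((Sm1 i - C) * Pp1 k) = (Sm1 i - C) * (D * l1 + W * Sm1 i) := by
        rw [a2, ← g3]; ring
      rw [q3] at q2
      nlinarith [q2]
    have e2 : C * D * l2 + C * W * Sm2 i ≤ W * Sm2 i ^ 2 := by
      have q1 : (Sm2 i - C) * Pp2 k = D * l2 := by
        have : (Sm2 i - C) * Pp2 k = D * (Sp2 k * Pp2 k) := by rw [b1]; ring
        rw [this, g2]
      have q0 : 0 < Sm2 i - C := by rw [b1]; have := mul_pos hD hSp2; linarith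
      have q2 : Sm2 i * ((Sm2 i - C) * Pp2 k) = Sm2 i * (D * l2) := by rw [q1]
      have q3 : Sm2 i * ((Sm2 i - C) * Pp2 k)
          = (Sm2 i - C) * (D * (Sm2 i * Pm2 i) + W * Sm2 i) := by
        rw [b2]; ring
      have q4 : (Sm2 i - C) * (D * (Sm2 i * Pm2 i)) ≤ (Sm2 i - C) * (D * l2) :=
        mul_le_mul_of_nonneg_left (mul_le_mul_of_nonneg_left g4 hD.le) q0.le
      nlinarith [q2, q3, q4]
    -- f < th
    have hb21 : Sm2 i < th * Sm1 i := by rw [hfi]; exact mul_lt_mul_of_pos_right hcon hb1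
    have hlt : Sm2 i < Sm1 i := lt_of_lt_of_le hb21 (by nlinarith)
    -- multiply
    have m1 : Sm2 i ^ 2 * (W * Sm1 i ^ 2) ≤ Sm2 i ^ 2 * (C * D * l1 + C * W * Sm1 i) :=
      mul_le_mul_of_nonneg_left e1 (by positivity)
    have m2 : Sm1 i ^ 2 * (C * D * l2 + C * W * Sm2 i) ≤ Sm1 i ^ 2 * (W * Sm2 i ^ 2) :=
      mul_le_mul_of_nonneg_left e2 (by positivity)
    have m3 : Sm1 i ^ 2 * (C * D * l2 + C * W * Sm2 i) ≤ Sm2 i ^ 2 * (C * D * l1 + C * W * Sm1 i) := by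
      nlinarith [m1, m2]
    have m4 : Sm2 i ^ 2 * l1 ≤ Sm1 i ^ 2 * l2 := by
      have : Sm2 i ^ 2 ≤ (th * Sm1 i) ^ 2 := by
        apply pow_le_pow_left₀ hb2.le hb21.le
      calc Sm2 i ^ 2 * l1 ≤ (th * Sm1 i) ^ 2 * l1 := mul_le_mul_of_nonneg_right this hl1.le
        _ = Sm1 i ^ 2 * l2 := by rw [← hth2]; ring
    have m5 : Sm2 i ^ 2 * Sm1 i < Sm1 i ^ 2 * Sm2 i := by
      have : 0 < Sm1 i * Sm2 i * (Sm1 i - Sm2 i) :=
        mul_pos (mul_pos hb1 hb2) (by linarith)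
      nlinarith [this]
    have m6 : C * D * (Sm2 i ^ 2 * l1) ≤ C * D * (Sm1 i ^ 2 * l2) :=
      mul_le_mul_of_nonneg_left m4 (mul_pos hC hD).le
    have m7 : C * W * (Sm2 i ^ 2 * Sm1 i) < C * W * (Sm1 i ^ 2 * Sm2 i) :=
      mul_lt_mul_of_pos_left m5 (mul_pos hC hW)
    nlinarith [m3, m6, m7]
  · -- case k active only for the first
    have h1 : 0 < μ1 k := by
      rcases hn1 with h | h
      · exact h
      · exact absurd h h2
    have hz2 : μ2 k = 0 := le_antisymm (not_lt.mp h2) (K2.mu_nonneg k)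
    have e2 : Sp2 k = Sm2 k := by rw [K2.sp k, hz2]; simp
    have e1 : Sp1 k < Sm1 k := by
      rw [K1.sp k]
      have : Real.exp (-μ1 k) < 1 := by rw [Real.exp_lt_one_iff]; linarith
      nlinarith
    have e3 : f * Sm1 k ≤ Sm2 k := by
      have := hmin k h1
      rwa [le_div_iff₀ hA1] at this
    have e4 : f * Sp1 k < Sp2 k := by
      rw [e2]
      calc f * Sp1 k < f * Sm1 k := mul_lt_mul_of_pos_left e1 hf0
        _ ≤ _ := e3
    have e5 : f * Sm1 i < Sm2 i := by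
      rw [a1, b1]
      have q1 : D * (f * Sp1 k) < D * Sp2 k := mul_lt_mul_of_pos_left e4 hD
      have q2 : f * C ≤ C := by nlinarith
      nlinarith [q1, q2]
    linarith

theorem compare {σ : Equiv.Perm I} {d c w : I → ℝ} (hd : ∀ i, 0 < d i) (hc : ∀ i, 0 < c i)
    (hw : ∀ i, 0 < w i) {l1 l2 : ℝ} {μ1 Sm1 Sp1 Pm1 Pp1 μ2 Sm2 Sp2 Pm2 Pp2 : I → ℝ}
    (K1 : KKT σ d c w l1 μ1 Sm1 Sp1 Pm1 Pp1) (K2 : KKT σ d c w l2 μ2 Sm2 Sp2 Pm2 Pp2)
    (hl : l2 ≤ l1) (i : I) : μ1 i ≤ μ2 i := by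
  rcases (K1.mu_nonneg i).eq_or_lt with h0 | h0
  · rw [← h0]; exact K2.mu_nonneg i
  have hl1 := K1.lam_pos
  have hl2 := K2.lam_pos
  set th := Real.sqrt (l2 / l1) with hth
  have ht0 : 0 < th := Real.sqrt_pos.mpr (div_pos hl2 hl1)
  have ht2 : th ^ 2 * l1 = l2 := by
    rw [hth, Real.sq_sqrt (div_pos hl2 hl1).le, div_mul_cancel₀ _ hl1.ne']
  have h1 := half hd hc hw K1 K2 hl th ht0 ht2 i h0
  have h2 := half (fun i => hd _) (fun i => hw _) (fun i => hc _) K1.rev K2.rev hl th ht0 ht2 i h0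
  have e1 := K1.eq i h0
  rw [K1.sp i] at e1
  have e2 := K2.le i
  rw [K2.sp i] at e2
  have hS1 := K1.sm_pos i
  have hP1 := K1.pp_pos i
  have hprod : th ^ 2 * (Sm1 i * Pp1 i) ≤ Sm2 i * Pp2 i := by
    calc th ^ 2 * (Sm1 i * Pp1 i) = (th * Sm1 i) * (th * Pp1 i) := by ring
      _ ≤ Sm2 i * Pp2 i := mul_le_mul h1 h2 (by positivity) (K2.sm_pos i).le
  have hx1 : Sm1 i * Pp1 i = l1 * Real.exp (μ1 i) := by
    have : Real.exp (-μ1 i) * (Sm1 i * Pp1 i) = l1 := by rw [← e1]; ring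
    have h3 : Real.exp (μ1 i) * (Real.exp (-μ1 i) * (Sm1 i * Pp1 i)) = Sm1 i * Pp1 i := by
      rw [← mul_assoc, ← Real.exp_add]; simp
    rw [← h3, this]; ring
  have hx2 : Sm2 i * Pp2 i ≤ l2 * Real.exp (μ2 i) := by
    have h4 : Real.exp (-μ2 i) * (Sm2 i * Pp2 i) ≤ l2 := by
      calc Real.exp (-μ2 i) * (Sm2 i * Pp2 i) = Real.exp (-μ2 i) * Sm2 i * Pp2 i := by ring
        _ ≤ l2 := e2
    have h3 : Real.exp (μ2 i) * (Real.exp (-μ2 i) * (Sm2 i * Pp2 i)) = Sm2 i * Pp2 i := by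
      rw [← mul_assoc, ← Real.exp_add]; simp
    rw [← h3, mul_comm l2]
    exact mul_le_mul_of_nonneg_left h4 (Real.exp_pos _).le
  rw [hx1] at hprod
  have h5 : l2 * Real.exp (μ1 i) ≤ l2 * Real.exp (μ2 i) := by
    calc l2 * Real.exp (μ1 i) = th ^ 2 * (l1 * Real.exp (μ1 i)) := by rw [← ht2]; ring
      _ ≤ _ := hprod.trans hx2
  exact Real.exp_le_exp.mp (le_of_mul_le_mul_left h5 hl2)

end R261.Eff
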