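import Pool.Agent.R261.Eff.Disc

/-! The finite optimal effort problem: minimisers exist, satisfy the KKT system, are monotone. -/

namespace R261.Eff

open Finset Filter Topology

variable {I : Type*} [Fintype I]

/-- The periodic solution of the discrete equation with effort `ν`. -/
def Sol (σ : Equiv.Perm I) (d c ν s : I → ℝ) : Prop :=
  ∀ i, s (σ i) = Real.exp (-ν i) * (d i * s i + c i)

lemma exists_sol [Nonempty I] (σ : Equiv.Perm I) (a g : I → ℝ) (ha0 : ∀ i, 0 ≤ a i)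
    (ha1 : ∀ i, a i < 1) (hg : ∀ i, 0 < g i) :
    ∃ x : I → ℝ, (∀ i, 0 < x i) ∧ ∀ i, x (σ i) = a i * x i + g i := by
  classical
  let L : (I → ℝ) →ₗ[ℝ] (I → ℝ) :=
    { toFun := fun x i => x (σ i) - a i * x i
      map_add' := fun x y => by ext i; simp; ring
      map_smul' := fun r x => by ext i; simp; ring }
  have hinj : Function.Injective L := by
    rw [← LinearMap.ker_eq_bot, LinearMap.ker_eq_bot']
    intro x hx
    have hx' : ∀ i, x (σ i) = a i * x i := fun i => by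
      have := congrFun hx i
      simp only [L, LinearMap.coe_mk, AddHom.coe_mk, Pi.zero_apply] at this
      linarith
    obtain ⟨i0, -, hmax⟩ := Finset.exists_max_image (Finset.univ : Finset I) (fun i => |x i|)
      Finset.univ_nonempty
    have h1 : x i0 = a (σ⁻¹ i0) * x (σ⁻¹ i0) := by
      have := hx' (σ⁻¹ i0); simpa using this
    have h2 : |x i0| ≤ a (σ⁻¹ i0) * |x i0| := by
      calc |x i0| = a (σ⁻¹ i0) * |x (σ⁻¹ i0)| := by
            rw [h1, abs_mul, abs_of_nonneg (ha0 _)]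
        _ ≤ _ := mul_le_mul_of_nonneg_left (hmax _ (mem_univ _)) (ha0 _)
    have h3 : |x i0| = 0 := by
      have := ha1 (σ⁻¹ i0)
      nlinarith [abs_nonneg (x i0)]
    ext i
    have := hmax i (mem_univ _)
    rw [h3] at this
    simpa using abs_nonpos_iff.mp this
  obtain ⟨x, hx⟩ := (LinearMap.injective_iff_surjective.mp hinj) g
  have hx' : ∀ i, x (σ i) = a i * x i + g i := fun i => by
    have := congrFun hx i
    simp only [L, LinearMap.coe_mk, AddHom.coe_mk] at this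
    linarith
  refine ⟨x, ?_, hx'⟩
  obtain ⟨i0, -, hmin⟩ := Finset.exists_min_image (Finset.univ : Finset I) x
    Finset.univ_nonempty
  have h1 : x i0 = a (σ⁻¹ i0) * x (σ⁻¹ i0) + g (σ⁻¹ i0) := by
    have := hx' (σ⁻¹ i0); simpa using this
  have hpos : 0 < x i0 := by
    by_contra hcon
    push Not at hcon
    have h2 := mul_le_mul_of_nonneg_left (hmin (σ⁻¹ i0) (mem_univ _)) (ha0 (σ⁻¹ i0))
    have h3 := hg (σ⁻¹ i0)
    have h4 := ha1 (σ⁻¹ i0)
    nlinarith
  exact fun i => lt_of_lt_of_le hpos (hmin i (mem_univ _))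

/-- stability estimate -/
lemma sol_stab [Nonempty I] (σ : Equiv.Perm I) (d c : I → ℝ) (D : ℝ) (hD1 : D < 1)
    (hd0 : ∀ i, 0 ≤ d i) (hdD : ∀ i, d i ≤ D) (ν ν' s s' : I → ℝ)
    (hν' : ∀ i, 0 ≤ ν' i) (hs : Sol σ d c ν s) (hs' : Sol σ d c ν' s') (i : I) :
    |s' i - s i| ≤ (∑ j, |Real.exp (-ν' j) - Real.exp (-ν j)| * |d j * s j + c j|) / (1 - D) := by
  classical
  obtain ⟨i0, -, hmax⟩ := Finset.exists_max_image (Finset.univ : Finset I) (fun i => |s' i - s i|)
    Finset.univ_nonempty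
  refine (hmax i (mem_univ _)).trans ?_
  rw [le_div_iff₀ (by linarith)]
  set j := σ⁻¹ i0 with hj
  have hji : σ j = i0 := by simp [hj]
  have e : s' i0 - s i0 = Real.exp (-ν' j) * (d j * (s' j - s j))
      + (Real.exp (-ν' j) - Real.exp (-ν j)) * (d j * s j + c j) := by
    rw [← hji, hs j, hs' j]; ring
  have h1 : |Real.exp (-ν' j) * (d j * (s' j - s j))| ≤ D * |s' i0 - s i0| := by
    rw [abs_mul, abs_mul, abs_of_nonneg (Real.exp_pos _).le, abs_of_nonneg (hd0 j)]
    have q1 : Real.exp (-ν' j) ≤ 1 := by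
      rw [Real.exp_le_one_iff]; linarith [hν' j]
    calc Real.exp (-ν' j) * (d j * |s' j - s j|) ≤ 1 * (d j * |s' j - s j|) :=
          mul_le_mul_of_nonneg_right q1 (mul_nonneg (hd0 j) (abs_nonneg _))
      _ = d j * |s' j - s j| := one_mul _
      _ ≤ D * |s' i0 - s i0| :=
          mul_le_mul (hdD j) (hmax j (mem_univ _)) (abs_nonneg _) ((hd0 j).trans (hdD j))
  have h2 : |(Real.exp (-ν' j) - Real.exp (-ν j)) * (d j * s j + c j)|
      ≤ ∑ j, |Real.exp (-ν' j) - Real.exp (-ν j)| * |d j * s j + c j| := by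
    rw [abs_mul]
    exact Finset.single_le_sum (f := fun j => |Real.exp (-ν' j) - Real.exp (-ν j)| *
      |d j * s j + c j|) (fun i _ => mul_nonneg (abs_nonneg _) (abs_nonneg _)) (mem_univ j)
  have h3 : |s' i0 - s i0| ≤ D * |s' i0 - s i0|
      + ∑ j, |Real.exp (-ν' j) - Real.exp (-ν j)| * |d j * s j + c j| := by
    calc |s' i0 - s i0| ≤ |Real.exp (-ν' j) * (d j * (s' j - s j))|
          + |(Real.exp (-ν' j) - Real.exp (-ν j)) * (d j * s j + c j)| := by
            rw [e]; exact abs_add_le _ _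
      _ ≤ _ := add_le_add h1 h2
  linarith

/-- Minimiser of the finite problem. -/
structure IsMinD (σ : Equiv.Perm I) (d c w : I → ℝ) (b : ℝ) (ν s : I → ℝ) : Prop where
  nonneg : ∀ i, 0 ≤ ν i
  sum : ∑ i, ν i = b
  sol : Sol σ d c ν s
  min : ∀ ν' s' : I → ℝ, (∀ i, 0 ≤ ν' i) → ∑ i, ν' i = b → Sol σ d c ν' s' →
    ∑ i, w i * s i ≤ ∑ i, w i * s' i

lemma exists_sol' [Nonempty I] (σ : Equiv.Perm I) (d c : I → ℝ) (D : ℝ) (hD1 : D < 1)
    (hd0 : ∀ i, 0 ≤ d i) (hdD : ∀ i, d i ≤ D) (hc : ∀ i, 0 < c i) (ν : I → ℝ)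
    (hν : ∀ i, 0 ≤ ν i) : ∃ s : I → ℝ, (∀ i, 0 < s i) ∧ Sol σ d c ν s := by
  have hlt : ∀ i, Real.exp (-ν i) * d i < 1 := fun i => by
    have q1 : Real.exp (-ν i) ≤ 1 := by
      rw [Real.exp_le_one_iff]; linarith [hν i]
    calc Real.exp (-ν i) * d i ≤ 1 * d i := mul_le_mul_of_nonneg_right q1 (hd0 i)
      _ = d i := one_mul _
      _ ≤ D := hdD i
      _ < 1 := hD1
  obtain ⟨s, h1, h2⟩ := exists_sol σ (fun i => Real.exp (-ν i) * d i)
    (fun i => Real.exp (-ν i) * c i) (fun i => mul_nonneg (Real.exp_pos _).le (hd0 i))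
    hlt (fun i => mul_pos (Real.exp_pos _) (hc i))
  exact ⟨s, h1, fun i => by rw [h2 i]; ring⟩

lemma sol_unique [Nonempty I] (σ : Equiv.Perm I) (d c : I → ℝ) (D : ℝ) (hD1 : D < 1)
    (hd0 : ∀ i, 0 ≤ d i) (hdD : ∀ i, d i ≤ D) (ν s s' : I → ℝ)
    (hν : ∀ i, 0 ≤ ν i) (hs : Sol σ d c ν s) (hs' : Sol σ d c ν s') : s' = s := by
  ext i
  have := sol_stab σ d c D hD1 hd0 hdD ν ν s s' hν hs hs' i
  simp only [sub_self, abs_zero, zero_mul, Finset.sum_const_zero, zero_div] at this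
  have := abs_nonpos_iff.mp this
  linarith

lemma exists_minD [Nonempty I] (σ : Equiv.Perm I) (d c w : I → ℝ) (D : ℝ) (hD1 : D < 1)
    (hd0 : ∀ i, 0 ≤ d i) (hdD : ∀ i, d i ≤ D) (hc : ∀ i, 0 < c i) (b : ℝ) (hb : 0 ≤ b) :
    ∃ ν s : I → ℝ, IsMinD σ d c w b ν s := by
  classical
  obtain ⟨iC, -, hC⟩ := Finset.exists_max_image (Finset.univ : Finset I) c
    Finset.univ_nonempty
  have hD0 : 0 ≤ D := (hd0 iC).trans (hdD iC)
  let K : Set ((I → ℝ) × (I → ℝ)) := {p | (∀ i, 0 ≤ p.1 i) ∧ ∑ i, p.1 i = b ∧ Sol σ d c p.1 p.2}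
  have hclosed : IsClosed K := by
    have h1 : IsClosed {p : (I → ℝ) × (I → ℝ) | ∀ i, 0 ≤ p.1 i} := by
      simp only [Set.ofPred_forall]
      exact isClosed_iInter fun i => isClosed_le continuous_const (by fun_prop)
    have h2 : IsClosed {p : (I → ℝ) × (I → ℝ) | ∑ i, p.1 i = b} :=
      isClosed_eq (by fun_prop) continuous_const
    have h3 : IsClosed {p : (I → ℝ) × (I → ℝ) | Sol σ d c p.1 p.2} := by
      simp only [Sol, Set.ofPred_forall]
      exact isClosed_iInter fun i => isClosed_eq (by fun_prop) (by fun_prop)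
    exact h1.inter (h2.inter h3)
  have hbdd : K ⊆ (Set.pi Set.univ fun _ => Set.Icc 0 b) ×ˢ
      (Set.pi Set.univ fun _ => Set.Icc (-(c iC / (1 - D))) (c iC / (1 - D))) := by
    rintro ⟨ν, s⟩ ⟨h1, h2, h3⟩
    simp only at h1 h2 h3
    refine ⟨?_, ?_⟩
    · intro i _
      refine ⟨h1 i, ?_⟩
      rw [← h2]
      exact Finset.single_le_sum (fun i _ => h1 i) (mem_univ i)
    · intro i _
      show -(c iC / (1 - D)) ≤ s i ∧ s i ≤ c iC / (1 - D)
      rw [← abs_le]
      obtain ⟨i0, -, hmax⟩ := Finset.exists_max_image (Finset.univ : Finset I) (fun i => |s i|)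
        Finset.univ_nonempty
      refine (hmax i (mem_univ _)).trans ?_
      rw [le_div_iff₀ (by linarith)]
      set j := σ⁻¹ i0 with hj
      have hji : σ j = i0 := by simp [hj]
      have e := h3 j
      rw [hji] at e
      have q1 : Real.exp (-ν j) ≤ 1 := by
        rw [Real.exp_le_one_iff]; linarith [h1 j]
      have : |s i0| ≤ D * |s i0| + c iC := by
        calc |s i0| = Real.exp (-ν j) * |d j * s j + c j| := by
              rw [e, abs_mul, abs_of_nonneg (Real.exp_pos _).le]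
          _ ≤ 1 * |d j * s j + c j| := mul_le_mul_of_nonneg_right q1 (abs_nonneg _)
          _ = |d j * s j + c j| := one_mul _
          _ ≤ |d j * s j| + |c j| := abs_add_le _ _
          _ = d j * |s j| + c j := by rw [abs_mul, abs_of_nonneg (hd0 j), abs_of_pos (hc j)]
          _ ≤ D * |s i0| + c iC := add_le_add
              (mul_le_mul (hdD j) (hmax j (mem_univ _)) (abs_nonneg _) hD0) (hC j (mem_univ _))
      linarith
  have hcomp : IsCompact K := by
    refine IsCompact.of_isClosed_subset ?_ hclosed hbdd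
    exact (isCompact_univ_pi fun _ => isCompact_Icc).prod (isCompact_univ_pi fun _ => isCompact_Icc)
  have hne : K.Nonempty := by
    let ν : I → ℝ := fun i => if i = iC then b else 0
    have hν : ∀ i, 0 ≤ ν i := fun i => by
      simp only [ν]; split_ifs; exacts [hb, le_rfl]
    obtain ⟨s, -, hs⟩ := exists_sol' σ d c D hD1 hd0 hdD hc ν hν
    exact ⟨(ν, s), hν, by simp [ν], hs⟩
  obtain ⟨⟨ν, s⟩, hmem, hmin⟩ := hcomp.exists_isMinOn hne
    (f := fun p : (I → ℝ) × (I → ℝ) => ∑ i, w i * p.2 i) (by fun_prop)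
  refine ⟨ν, s, hmem.1, hmem.2.1, hmem.2.2, fun ν' s' h1 h2 h3 => ?_⟩
  exact hmin (show (ν', s') ∈ K from ⟨h1, h2, h3⟩)

/-- duality identity -/
lemma duality (σ : Equiv.Perm I) (d c w ν ν' s s' p : I → ℝ)
    (hs : Sol σ d c ν s) (hs' : Sol σ d c ν' s')
    (hp : ∀ i, p i = d i * (Real.exp (-ν i) * p (σ i)) + w i) :
    ∑ i, w i * s' i - ∑ i, w i * s i
      = ∑ i, p (σ i) * ((Real.exp (-ν' i) - Real.exp (-ν i)) * (d i * s' i + c i)) := by
  have h1 : ∑ i, p i * (s' i - s i) = ∑ i, p (σ i) * (s' (σ i) - s (σ i)) :=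
    (Equiv.sum_comp σ (fun i => p i * (s' i - s i))).symm
  have h2 : ∑ i, w i * s' i - ∑ i, w i * s i
      = ∑ i, p i * (s' i - s i) - ∑ i, d i * (Real.exp (-ν i) * p (σ i)) * (s' i - s i) := by
    rw [← Finset.sum_sub_distrib, ← Finset.sum_sub_distrib]
    refine Finset.sum_congr rfl fun i _ => ?_
    have : w i = p i - d i * (Real.exp (-ν i) * p (σ i)) := by rw [hp i]; ring
    rw [this]; ring
  rw [h2, h1, ← Finset.sum_sub_distrib]
  refine Finset.sum_congr rfl fun i _ => ?_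
  rw [hs i, hs' i]; ring

lemma kkt_of_min [Nonempty I] {σ : Equiv.Perm I} {d c w : I → ℝ} {D : ℝ} (hD1 : D < 1)
    (hd0 : ∀ i, 0 < d i) (hdD : ∀ i, d i ≤ D) (hc : ∀ i, 0 < c i) (hw : ∀ i, 0 < w i)
    {b : ℝ} (hb : 0 < b) {ν s : I → ℝ} (h : IsMinD σ d c w b ν s) :
    ∃ lam : ℝ, ∃ Sm Sp Pm Pp : I → ℝ,
      KKT σ (fun i => d (σ i)) (fun i => c (σ i)) (fun i => w (σ i)) lam ν Sm Sp Pm Pp := by
  classical
  -- positivity of s
  have hspos : ∀ i, 0 < s i := by
    obtain ⟨s2, h1, h2⟩ := exists_sol' σ d c D hD1 (fun i => (hd0 i).le) hdD hc ν h.nonneg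
    have := sol_unique σ d c D hD1 (fun i => (hd0 i).le) hdD ν s s2 h.nonneg h.sol h2
    rw [← this]; exact h1
  -- adjoint
  obtain ⟨p, hp0, hp1⟩ := exists_sol σ⁻¹ (fun j => d (σ⁻¹ j) * Real.exp (-ν (σ⁻¹ j)))
    (fun j => w (σ⁻¹ j)) (fun i => mul_nonneg (hd0 _).le (Real.exp_pos _).le)
    (fun i => by
      have q1 : Real.exp (-ν (σ⁻¹ i)) ≤ 1 := by
        rw [Real.exp_le_one_iff]; linarith [h.nonneg (σ⁻¹ i)]
      calc d (σ⁻¹ i) * Real.exp (-ν (σ⁻¹ i)) ≤ d (σ⁻¹ i) * 1 :=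
            mul_le_mul_of_nonneg_left q1 (hd0 _).le
        _ = d (σ⁻¹ i) := mul_one _
        _ ≤ D := hdD _
        _ < 1 := hD1) (fun i => hw _)
  have hp : ∀ i, p i = d i * (Real.exp (-ν i) * p (σ i)) + w i := fun i => by
    have := hp1 (σ i)
    have e0 : σ⁻¹ (σ i) = i := by simp
    rw [e0] at this
    rw [this]; ring
  set G : I → ℝ := fun i => s (σ i) * p (σ i) with hG
  -- first order condition
  have hfoc : ∀ a b', 0 < ν b' → G a ≤ G b' := by
    intro a b' hb'
    by_cases hab : a = b'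
    · rw [hab]
    -- perturbation
    let nu : ℝ → I → ℝ := fun ε i => ν i + (if i = a then ε else 0) - (if i = b' then ε else 0)
    have hnu0 : ∀ ε, 0 ≤ ε → ε ≤ ν b' → ∀ i, 0 ≤ nu ε i := by
      intro ε h0 h1 i
      simp only [nu]
      have := h.nonneg i
      split_ifs with q1 q2 q2
      · exact absurd (q1.symm.trans q2) hab
      · linarith
      · rw [q2]; linarith
      · linarith
    have hex : ∀ ε : ℝ, ∃ s' : I → ℝ, 0 ≤ ε → ε ≤ ν b' → Sol σ d c (nu ε) s' := by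
      intro ε
      by_cases q : 0 ≤ ε ∧ ε ≤ ν b'
      · obtain ⟨s', -, hs'⟩ := exists_sol' σ d c D hD1 (fun i => (hd0 i).le) hdD hc (nu ε)
          (hnu0 ε q.1 q.2)
        exact ⟨s', fun _ _ => hs'⟩
      · exact ⟨0, fun h1 h2 => absurd ⟨h1, h2⟩ q⟩
    choose S hS using hex
    have hev : ∀ᶠ ε in 𝓝[>] (0 : ℝ), 0 ≤ ε ∧ ε ≤ ν b' := by
      have : Set.Ioo (0 : ℝ) (ν b') ∈ 𝓝[>] (0 : ℝ) := Ioo_mem_nhdsGT hb'
      filter_upwards [this] with ε hε
      exact ⟨hε.1.le, hε.2.le⟩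
    have hnuc : ∀ i, Tendsto (fun ε => Real.exp (-nu ε i)) (𝓝[>] 0) (𝓝 (Real.exp (-ν i))) := by
      intro i
      have : Continuous (fun ε => Real.exp (-nu ε i)) := by
        simp only [nu]
        split_ifs <;> fun_prop
      have h2 := this.tendsto 0
      have h3 : nu 0 i = ν i := by simp [nu]
      rw [h3] at h2
      exact h2.mono_left nhdsWithin_le_nhds
    have hSc : ∀ i, Tendsto (fun ε => S ε i) (𝓝[>] 0) (𝓝 (s i)) := by
      intro i
      rw [tendsto_iff_norm_sub_tendsto_zero]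
      have hlim : Tendsto (fun ε => (∑ j, |Real.exp (-nu ε j) - Real.exp (-ν j)| *
          |d j * s j + c j|) / (1 - D)) (𝓝[>] 0) (𝓝 0) := by
        have : Tendsto (fun ε => (∑ j, |Real.exp (-nu ε j) - Real.exp (-ν j)| *
          |d j * s j + c j|) / (1 - D)) (𝓝[>] 0) (𝓝 ((∑ j, |Real.exp (-ν j) - Real.exp (-ν j)| *
          |d j * s j + c j|) / (1 - D))) := by
          refine Tendsto.div_const ?_ _
          refine tendsto_finsetSum _ fun j _ => ?_
          exact (((hnuc j).sub_const _).abs).mul_const _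
        simpa using this
      refine squeeze_zero' (Eventually.of_forall fun _ => norm_nonneg _) ?_ hlim
      filter_upwards [hev] with ε hε
      rw [Real.norm_eq_abs]
      exact sol_stab σ d c D hD1 (fun i => (hd0 i).le) hdD ν (nu ε) s (S ε)
        (hnu0 ε hε.1 hε.2) h.sol (hS ε hε.1 hε.2) i
    -- the inequality for small eps
    have hineq : ∀ᶠ ε in 𝓝[>] (0 : ℝ), 0 ≤ p (σ a) * (Real.exp (-ν a) *
        ((Real.exp (-ε) - 1) / ε)) * (d a * S ε a + c a)
        + p (σ b') * (Real.exp (-ν b') * ((Real.exp ε - 1) / ε)) * (d b' * S ε b' + c b') := by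
      filter_upwards [hev, self_mem_nhdsWithin] with ε hε hεpos
      have hεpos' : 0 < ε := hεpos
      have hsum : ∑ i, nu ε i = b := by
        simp only [nu, Finset.sum_sub_distrib, Finset.sum_add_distrib, Finset.sum_ite_eq',
          Finset.mem_univ, if_true, h.sum]
        ring
      have hm := h.min (nu ε) (S ε) (hnu0 ε hε.1 hε.2) hsum (hS ε hε.1 hε.2)
      have hdu := duality σ d c w ν (nu ε) s (S ε) p h.sol (hS ε hε.1 hε.2) hp
      have hterm : ∑ i, p (σ i) * ((Real.exp (-nu ε i) - Real.exp (-ν i)) * (d i * S ε i + c i))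
          = p (σ a) * ((Real.exp (-nu ε a) - Real.exp (-ν a)) * (d a * S ε a + c a))
          + p (σ b') * ((Real.exp (-nu ε b') - Real.exp (-ν b')) * (d b' * S ε b' + c b')) := by
        rw [← Finset.sum_subset (Finset.subset_univ {a, b'})]
        · rw [Finset.sum_pair hab]
        · intro i _ hi
          simp only [Finset.mem_insert, Finset.mem_singleton, not_or] at hi
          have : nu ε i = ν i := by simp [nu, hi.1, hi.2]
          rw [this]; ring
      have ea : nu ε a = ν a + ε := by simp [nu, hab]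
      have eb : nu ε b' = ν b' - ε := by simp [nu, Ne.symm hab]
      rw [hterm, ea, eb] at hdu
      have e1 : Real.exp (-(ν a + ε)) = Real.exp (-ν a) * Real.exp (-ε) := by
        rw [← Real.exp_add]; congr 1; ring
      have e2 : Real.exp (-(ν b' - ε)) = Real.exp (-ν b') * Real.exp ε := by
        rw [← Real.exp_add]; congr 1; ring
      rw [e1, e2] at hdu
      have h0 : 0 ≤ (p (σ a) * ((Real.exp (-ν a) * Real.exp (-ε) - Real.exp (-ν a)) *
          (d a * S ε a + c a))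
          + p (σ b') * ((Real.exp (-ν b') * Real.exp ε - Real.exp (-ν b')) *
          (d b' * S ε b' + c b'))) / ε := by
        apply div_nonneg _ hεpos'.le
        rw [← hdu]; linarith
      refine h0.trans (le_of_eq ?_)
      field_simp
    have hlim1 : Tendsto (fun ε : ℝ => (Real.exp ε - 1) / ε) (𝓝[>] 0) (𝓝 1) := by
      have := Real.hasDerivAt_exp 0
      rw [hasDerivAt_iff_tendsto_slope] at this
      have h2 := this.mono_left (nhdsWithin_mono (0 : ℝ) (s := Set.Ioi 0) (t := {0}ᶜ) (by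
        intro x hx; simpa using (ne_of_gt hx)))
      simp only [Real.exp_zero] at h2
      refine h2.congr' ?_
      filter_upwards with ε
      simp [slope_def_field]
    have hlim2 : Tendsto (fun ε : ℝ => (Real.exp (-ε) - 1) / ε) (𝓝[>] 0) (𝓝 (-1)) := by
      have hd : HasDerivAt (fun x : ℝ => Real.exp (-x)) (-1) 0 := by
        have := (hasDerivAt_neg (0 : ℝ)).exp
        simpa using this
      rw [hasDerivAt_iff_tendsto_slope] at hd
      have h2 := hd.mono_left (nhdsWithin_mono (0 : ℝ) (s := Set.Ioi 0) (t := {0}ᶜ) (by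
        intro x hx; simpa using (ne_of_gt hx)))
      refine h2.congr' ?_
      filter_upwards with ε
      simp [slope_def_field]
    have hlim : Tendsto (fun ε => p (σ a) * (Real.exp (-ν a) *
        ((Real.exp (-ε) - 1) / ε)) * (d a * S ε a + c a)
        + p (σ b') * (Real.exp (-ν b') * ((Real.exp ε - 1) / ε)) * (d b' * S ε b' + c b'))
        (𝓝[>] 0) (𝓝 (p (σ a) * (Real.exp (-ν a) * (-1)) * (d a * s a + c a)
          + p (σ b') * (Real.exp (-ν b') * 1) * (d b' * s b' + c b'))) := by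
      refine Tendsto.add ?_ ?_
      · exact ((hlim2.const_mul _).const_mul _).mul (((hSc a).const_mul _).add_const _)
      · exact ((hlim1.const_mul _).const_mul _).mul (((hSc b').const_mul _).add_const _)
    have hfin := ge_of_tendsto hlim hineq
    simp only [hG]
    rw [h.sol a, h.sol b']
    nlinarith [hfin]
  -- an active site
  obtain ⟨b0, hb0⟩ : ∃ i, 0 < ν i := by
    by_contra hcon
    push Not at hcon
    have : ∑ i, ν i ≤ 0 := Finset.sum_nonpos fun i _ => hcon i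
    rw [h.sum] at this
    linarith
  have hsp' : ∀ i, 0 < d i * s i + c i := fun i => add_pos (mul_pos (hd0 i) (hspos i)) (hc i)
  refine ⟨G b0, fun i => d i * s i + c i, fun i => s (σ i), fun i => Real.exp (-ν i) * p (σ i),
    fun i => p (σ i), ?_⟩
  exact
    { mu_nonneg := h.nonneg
      sp := fun i => h.sol i
      pm := fun i => rfl
      sm := fun i => rfl
      pp := fun i => hp (σ i)
      sm_pos := hsp'
      pp_pos := fun i => hp0 _
      lam_pos := mul_pos (hspos _) (hp0 _)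
      le := fun i => hfoc i b0 hb0
      eq := fun i hi => le_antisymm (hfoc i b0 hb0) (hfoc b0 i hi) }

theorem disc_main [Nonempty I] {σ : Equiv.Perm I} {d c w : I → ℝ} {D : ℝ} (hD1 : D < 1)
    (hd0 : ∀ i, 0 < d i) (hdD : ∀ i, d i ≤ D) (hc : ∀ i, 0 < c i) (hw : ∀ i, 0 < w i)
    {b1 b2 : ℝ} (hb1 : 0 < b1) (hb : b1 < b2) {ν1 s1 ν2 s2 : I → ℝ}
    (h1 : IsMinD σ d c w b1 ν1 s1) (h2 : IsMinD σ d c w b2 ν2 s2) (i : I) : ν1 i ≤ ν2 i := by
  obtain ⟨l1, Sm1, Sp1, Pm1, Pp1, K1⟩ := kkt_of_min hD1 hd0 hdD hc hw hb1 h1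
  obtain ⟨l2, Sm2, Sp2, Pm2, Pp2, K2⟩ := kkt_of_min hD1 hd0 hdD hc hw (hb1.trans hb) h2
  rcases le_total l2 l1 with hl | hl
  · exact compare (fun i => hd0 _) (fun i => hc _) (fun i => hw _) K1 K2 hl i
  · exfalso
    have h3 := fun i => compare (fun i => hd0 _) (fun i => hc _) (fun i => hw _) K2 K1 hl i
    have h4 : ∑ i, ν2 i ≤ ∑ i, ν1 i := Finset.sum_le_sum fun i _ => h3 i
    rw [h1.sum, h2.sum] at h4
    linarith

end R261.Eff
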