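import Mathlib

namespace R261.Eff

open MeasureTheory Filter Topology Set Function

/-- Helly selection for uniformly bounded monotone functions. -/
lemma helly (b : ℝ) (f : ℕ → ℝ → ℝ) (hm : ∀ n, Monotone (f n))
    (hb : ∀ n x, f n x ∈ Icc 0 b) :
    ∃ φ : ℕ → ℕ, StrictMono φ ∧ ∃ g : ℝ → ℝ, Monotone g ∧
      (∀ x, ContinuousWithinAt g (Ici x) x) ∧ (∀ x, g x ∈ Icc 0 b) ∧
      ∀ x, ContinuousAt g x → Tendsto (fun n => f (φ n) x) atTop (𝓝 (g x)) := by
  have hK : IsCompact (Set.pi univ (fun _ : ℚ => Icc (0 : ℝ) b)) :=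
    isCompact_univ_pi fun _ => isCompact_Icc
  obtain ⟨h, hh, φ, hφ, hlim⟩ := hK.tendsto_subseq (x := fun n (q : ℚ) => f n q)
    (fun n q _ => hb n q)
  have hq : ∀ q : ℚ, Tendsto (fun n => f (φ n) q) atTop (𝓝 (h q)) := fun q =>
    (tendsto_pi_nhds.mp hlim) q
  have hbd : ∀ x, IsBoundedUnder (· ≤ ·) atTop (fun n => f (φ n) x) := fun x =>
    isBoundedUnder_of ⟨b, fun n => (hb _ _).2⟩
  have hcb : ∀ x, IsCoboundedUnder (· ≤ ·) atTop (fun n => f (φ n) x) := fun x =>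
    (isBoundedUnder_of ⟨0, fun n => (hb _ _).1⟩ : IsBoundedUnder (· ≥ ·) atTop
      (fun n => f (φ n) x)).isCoboundedUnder_le
  let H : ℝ → ℝ := fun x => limsup (fun n => f (φ n) x) atTop
  have hHm : Monotone H := by
    intro x y hxy
    exact limsup_le_limsup (Eventually.of_forall fun n => hm _ hxy) (hcb x) (hbd y)
  have hHq : ∀ q : ℚ, H q = h q := fun q => (hq q).limsup_eq
  have hH01 : ∀ x, H x ∈ Icc 0 b := by
    intro x
    constructor
    · exact le_limsup_of_le (hbd x) (fun c hc => by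
        obtain ⟨n, hn⟩ := hc.exists
        exact (hb _ _).1.trans hn)
    · exact limsup_le_of_le (hcb x) (Eventually.of_forall fun n => (hb _ _).2)
  refine ⟨φ, hφ, rightLim H, hHm.rightLim, ?_, ?_, ?_⟩
  · intro x
    exact hHm.stieltjesFunction.right_continuous x
  · intro x
    constructor
    · exact (hH01 x).1.trans (hHm.le_rightLim le_rfl)
    · exact (hHm.rightLim_le (lt_add_one x)).trans (hH01 _).2
  · intro x hx
    refine tendsto_order.2 ⟨fun a ha => ?_, fun a ha => ?_⟩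
    · have h1 : ∀ᶠ y in 𝓝 x, a < rightLim H y := hx.eventually (lt_mem_nhds ha)
      obtain ⟨y, hyx, hya⟩ : ∃ y, y < x ∧ a < rightLim H y := by
        have h2 : ∀ᶠ y in 𝓝[<] x, a < rightLim H y := h1.filter_mono nhdsWithin_le_nhds
        obtain ⟨y, hy1, hy2⟩ := (h2.and self_mem_nhdsWithin).exists
        exact ⟨y, hy2, hy1⟩
      obtain ⟨q, hq1, hq2⟩ := exists_rat_btwn hyx
      have h3 : a < h q := by
        rw [← hHq]
        exact lt_of_lt_of_le hya (hHm.rightLim_le hq1)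
      filter_upwards [(hq q).eventually (lt_mem_nhds h3)] with n hn
      exact lt_of_lt_of_le hn (hm _ hq2.le)
    · have h1 : ∀ᶠ y in 𝓝 x, rightLim H y < a := hx.eventually (gt_mem_nhds ha)
      obtain ⟨y, hyx, hya⟩ : ∃ y, x < y ∧ rightLim H y < a := by
        have h2 : ∀ᶠ y in 𝓝[>] x, rightLim H y < a := h1.filter_mono nhdsWithin_le_nhds
        obtain ⟨y, hy1, hy2⟩ := (h2.and self_mem_nhdsWithin).exists
        exact ⟨y, hy2, hy1⟩
      obtain ⟨q, hq1, hq2⟩ := exists_rat_btwn hyx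
      have h3 : h q < a := by
        rw [← hHq]
        exact lt_of_le_of_lt ((hHm.le_rightLim le_rfl).trans (hHm.rightLim hq2.le)) hya
      filter_upwards [(hq q).eventually (gt_mem_nhds h3)] with n hn
      exact lt_of_le_of_lt (hm _ hq1.le) hn

/-- the quasi-periodic extension -/
noncomputable def ext (T b : ℝ) (G : ℝ → ℝ) (t : ℝ) : ℝ :=
  (⌊t / T⌋ : ℝ) * b + G (t - (⌊t / T⌋ : ℝ) * T)

lemma frac_mem {T : ℝ} (hT : 0 < T) (t : ℝ) : t - (⌊t / T⌋ : ℝ) * T ∈ Ico 0 T := by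
  have h1 := Int.floor_le (t / T)
  have h2 := Int.lt_floor_add_one (t / T)
  rw [le_div_iff₀ hT] at h1
  rw [div_lt_iff₀ hT] at h2
  constructor
  · linarith
  · linarith

lemma ext_mono {T b : ℝ} (hT : 0 < T) {G : ℝ → ℝ} (hG : MonotoneOn G (Ico 0 T))
    (h0 : ∀ x ∈ Ico 0 T, 0 ≤ G x) (hb : ∀ x ∈ Ico 0 T, G x ≤ b) : Monotone (ext T b G) := by
  intro s t hst
  unfold ext
  have hfl : ⌊s / T⌋ ≤ ⌊t / T⌋ := Int.floor_le_floor (div_le_div_of_nonneg_right hst hT.le)
  have hs := frac_mem hT s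
  have ht := frac_mem hT t
  have hb0 : 0 ≤ b := (h0 _ hs).trans (hb _ hs)
  rcases hfl.eq_or_lt with heq | hlt
  · rw [← heq] at ht ⊢
    have := hG hs ht (by linarith)
    linarith
  · have h1 := hb _ hs
    have h2 := h0 _ ht
    have h3 : ((⌊s / T⌋ : ℝ) + 1) * b ≤ (⌊t / T⌋ : ℝ) * b := by
      apply mul_le_mul_of_nonneg_right _ hb0
      exact_mod_cast hlt
    linarith

lemma ext_of_mem {T b : ℝ} (hT : 0 < T) {G : ℝ → ℝ} {t : ℝ} (ht0 : 0 ≤ t) (ht : t < T) :
    ext T b G t = G t := by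
  unfold ext
  have : ⌊t / T⌋ = 0 := by
    rw [Int.floor_eq_zero_iff]
    exact ⟨div_nonneg ht0 hT.le, (div_lt_one hT).mpr ht⟩
  rw [this]; simp

lemma ext_add {T b : ℝ} (hT : 0 < T) {G : ℝ → ℝ} (t : ℝ) :
    ext T b G (t + T) = ext T b G t + b := by
  unfold ext
  have : ⌊(t + T) / T⌋ = ⌊t / T⌋ + 1 := by
    rw [add_div, div_self hT.ne']; exact Int.floor_add_one _
  rw [this]
  push_cast
  rw [show t + T - ((⌊t / T⌋ : ℝ) + 1) * T = t - (⌊t / T⌋ : ℝ) * T by ring]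
  ring

lemma ext_rc {T b : ℝ} (hT : 0 < T) {G : ℝ → ℝ} (hG : ∀ x, ContinuousWithinAt G (Ici x) x) (t : ℝ) :
    ContinuousWithinAt (ext T b G) (Ici t) t := by
  have hm := frac_mem hT t
  set m := ⌊t / T⌋ with hmdef
  have h1 : ContinuousWithinAt (fun s => (m : ℝ) * b + G (s - (m : ℝ) * T)) (Ici t) t := by
    refine continuousWithinAt_const.add ?_
    have h2 : ContinuousWithinAt G (Ici (t - (m : ℝ) * T)) (t - (m : ℝ) * T) := hG _
    refine ContinuousWithinAt.comp (t := Ici (t - (m : ℝ) * T)) h2 (by fun_prop) ?_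
    intro s hs
    simp only [mem_Ici] at hs ⊢
    linarith
  refine h1.congr_of_eventuallyEq ?_ ?_
  · have : Iio (((m : ℝ) + 1) * T) ∈ 𝓝 t := Iio_mem_nhds (by have := hm.2; linarith)
    filter_upwards [nhdsWithin_le_nhds this, self_mem_nhdsWithin] with s hs1 hs2
    have hs2' : t ≤ s := hs2
    have hs1' : s < ((m : ℝ) + 1) * T := hs1
    have : ⌊s / T⌋ = m := by
      rw [Int.floor_eq_iff]
      constructor
      · rw [le_div_iff₀ hT]; have := hm.1; linarith
      · rw [div_lt_iff₀ hT]; exact hs1'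
    unfold ext
    rw [this]
  · unfold ext
    rw [← hmdef]

end R261.Eff
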