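import Pool.Agent.R261.Eff.Step
import Pool.Agent.R261.Eff.Helly

namespace R261.Eff

open MeasureTheory Filter Topology Set Function

variable {T δ : ℝ}

/-- discretised competitor -/
noncomputable def dsc (T : ℝ) (α : ℝ → ℝ) (n : ℕ) : Fin (n + 1) → ℝ :=
  fun j => α (((j : ℕ) + 1) * (T / (n + 1))) - α ((j : ℕ) * (T / (n + 1)))

lemma dsc_nonneg (hT : 0 < T) {α : ℝ → ℝ} (hα : Monotone α) (n : ℕ) (j : Fin (n + 1)) :
    0 ≤ dsc T α n j := by
  have := cell_le hT j (n := n)
  exact sub_nonneg.mpr (hα this.2.1.le)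

lemma dsc_sum (hT : 0 < T) {α : ℝ → ℝ} (h0 : α 0 = 0) (n : ℕ) :
    ∑ j, dsc T α n j = α T := by
  have h1 := psum_diff (n := n) α (T / (n + 1)) (n + 1) le_rfl
  have h2 : psum n (dsc T α n) (n + 1) = ∑ j, dsc T α n j := by
    unfold psum
    refine Finset.sum_congr rfl fun j _ => ?_
    rw [if_pos j.2]
  have h3 : ((n + 1 : ℕ) : ℝ) * (T / (n + 1)) = T := by push_cast; field_simp
  rw [h3, h0, sub_zero] at h1
  rw [← h2]
  exact h1

lemma dsc_tendsto (hT : 0 < T) {α : ℝ → ℝ} (h0 : α 0 = 0) {t : ℝ}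
    (ht : t ∈ Ico 0 T) (hc : ContinuousAt α t) :
    Tendsto (fun n => stp T n (dsc T α n) t) atTop (𝓝 (α t)) := by
  -- grid point to the left of t
  let m : ℕ → ℕ := fun n => ⌊t / (T / (n + 1))⌋₊
  have hh : ∀ n : ℕ, 0 < T / ((n : ℝ) + 1) := fun n => by positivity
  have hm1 : ∀ n : ℕ, (m n : ℝ) * (T / (n + 1)) ≤ t := fun n => by
    have := Nat.floor_le (div_nonneg ht.1 (hh n).le)
    rwa [le_div_iff₀ (hh n)] at this
  have hm2 : ∀ n : ℕ, t < ((m n : ℝ) + 1) * (T / (n + 1)) := fun n => by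
    have := Nat.lt_floor_add_one (t / (T / ((n : ℝ) + 1)))
    rwa [div_lt_iff₀ (hh n)] at this
  have hm3 : ∀ n : ℕ, m n ≤ n + 1 := fun n => by
    have h1 : (m n : ℝ) * (T / (n + 1)) < T := lt_of_le_of_lt (hm1 n) ht.2
    rw [mul_div_assoc', div_lt_iff₀ (by positivity), mul_comm] at h1
    have h2 := lt_of_mul_lt_mul_left h1 hT.le
    have : (m n : ℝ) < ((n + 1 : ℕ) : ℝ) := by push_cast; exact h2
    exact le_of_lt (by exact_mod_cast this)
  have e : ∀ n, stp T n (dsc T α n) t = α ((m n : ℝ) * (T / (n + 1))) := fun n => by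
    rw [stp_cell hT (hm1 n) (hm2 n)]
    have := psum_diff (n := n) α (T / (n + 1)) (m n) (hm3 n)
    rw [h0, sub_zero] at this
    exact this
  simp only [e]
  have hlim : Tendsto (fun n : ℕ => (m n : ℝ) * (T / (n + 1))) atTop (𝓝 t) := by
    have hz : Tendsto (fun n : ℕ => t - T / ((n : ℝ) + 1)) atTop (𝓝 t) := by
      have h1 : Tendsto (fun n : ℕ => T / ((n : ℝ) + 1)) atTop (𝓝 0) :=
        tendsto_const_nhds.div_atTop (tendsto_atTop_add_const_right _ _ tendsto_natCast_atTop_atTop)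
      simpa using h1.const_sub t
    refine tendsto_of_tendsto_of_tendsto_of_le_of_le hz tendsto_const_nhds ?_ hm1
    intro n
    have := hm2 n
    simp only
    linarith
  exact hc.tendsto.comp hlim

lemma ae_cont {g : ℝ → ℝ} (hg : Monotone g) : ∀ᵐ t : ℝ, ContinuousAt g t := by
  have := hg.countable_not_continuousAt
  rw [ae_iff]
  exact this.measure_zero _

/-- a limit of optimal step functions is optimal -/
lemma limit_opt (hT : 0 < T) (hδ : 0 < δ) {b : ℝ} (hb : 0 < b) {c w : ℝ → ℝ}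
    (hc : IntervalIntegrable c volume 0 T) (hc0 : ∀ t, 0 ≤ c t)
    (hw : IntervalIntegrable w volume 0 T) (hw0 : ∀ t, 0 ≤ w t)
    (e : ℕ → ℝ) (he0 : ∀ n, 0 ≤ e n) (he1 : ∀ n, e n ≤ 1) (he : Tendsto e atTop (𝓝 0))
    (φ : ℕ → ℕ) (hφ : StrictMono φ) (ν : ∀ n, Fin (n + 1) → ℝ)
    (hν : ∀ n j, 0 ≤ ν n j) (hsum : ∀ n, ∑ j, ν n j = b)
    (hopt : ∀ n, ∀ ν' : Fin (n + 1) → ℝ, (∀ j, 0 ≤ ν' j) → ∑ j, ν' j = b →
      ∫ t in (0 : ℝ)..T, (w t + e n) * Sg T δ b (fun r => c r + e n) (stp T n (ν n)) t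
        ≤ ∫ t in (0 : ℝ)..T, (w t + e n) * Sg T δ b (fun r => c r + e n) (stp T n ν') t)
    (g : ℝ → ℝ) (hgm : Monotone g) (hgr : ∀ x, ContinuousWithinAt g (Ici x) x)
    (hgb : ∀ x, g x ∈ Icc 0 b)
    (hlim : ∀ x, ContinuousAt g x →
      Tendsto (fun k => stp T (φ k) (ν (φ k)) x) atTop (𝓝 (g x))) :
    IsOpt T δ c w (b / T) (ext T b (fun x => g x - g 0)) := by
  set α := ext T b (fun x => g x - g 0) with hα
  have hαT : α T = b := by
    have := ext_add (b := b) hT (G := fun x => g x - g 0) 0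
    rw [zero_add, ext_of_mem hT le_rfl hT] at this
    rw [hα, this]; ring
  have hα0 : α 0 = 0 := by
    rw [hα, ext_of_mem hT le_rfl hT]; ring
  have hcls : Cls T α := by
    refine ⟨ext_mono hT ?_ ?_ ?_, ext_rc hT ?_, hα0, ?_⟩
    · intro x _ y _ hxy
      have := hgm hxy
      simp only
      linarith
    · intro x hx
      have := hgm hx.1
      linarith
    · intro x _
      have h1 := (hgb x).2
      have h2 := (hgb 0).1
      linarith
    · intro x
      exact (hgr x).sub continuousWithinAt_const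
    · intro t
      rw [hαT]
      exact ext_add hT t
  refine ⟨hcls, by rw [hαT], ?_⟩
  intro β hβ hβT
  have hβT' : β T = b := by
    rw [div_left_inj' hT.ne'] at hβT; exact hβT
  -- cost of α
  have hcost1 : cost T δ c w α = (1 / T) * ∫ t in (0 : ℝ)..T, w t * Sg T δ b c g t := by
    unfold cost Sfun
    rw [hαT]
    congr 1
    refine intervalIntegral.integral_congr_ae ?_
    have : ∀ᵐ r : ℝ, r ≠ T := by
      rw [ae_iff]; simp
    filter_upwards [this] with t ht hmem
    rw [uIoc_of_le hT.le] at hmem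
    have htT := lt_of_le_of_ne hmem.2 ht
    have h1 : Sg T δ b c α t = Sg T δ b c (fun x => g x - g 0) t :=
      Sg_congr (fun s hs1 hs2 => ext_of_mem hT hs1 hs2) hmem.1.le htT
    rw [h1, Sg_shift]
  have hcost2 : cost T δ c w β = (1 / T) * ∫ t in (0 : ℝ)..T, w t * Sg T δ b c β t := by
    unfold cost Sfun
    rw [hβT']
  rw [hcost1, hcost2]
  refine mul_le_mul_of_nonneg_left ?_ (by positivity)
  -- convergence of both sides
  have hbdd : ∀ n t, stp T n (ν n) t ≤ b := fun n t => by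
    have := stp_le (T := T) (hν n) t
    rwa [hsum n] at this
  have hL := conv hT hδ hb.le hc hc0 hw hw0 (fun k => e (φ k)) (fun k => he0 _) (fun k => he1 _)
    (he.comp hφ.tendsto_atTop) (fun k => stp T (φ k) (ν (φ k))) g (fun k => stp_meas)
    (fun k t => stp_nonneg (hν _) t) (fun k t => hbdd _ t) (by
      rw [ae_restrict_iff' measurableSet_Ioc]
      filter_upwards [ae_cont hgm] with t ht _
      exact hlim t ht)
  have hbdd2 : ∀ n t, stp T n (dsc T β n) t ≤ b := fun n t => by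
    have := stp_le (T := T) (dsc_nonneg hT hβ.mono n) t
    rwa [dsc_sum hT hβ.zero n, hβT'] at this
  have hR := conv hT hδ hb.le hc hc0 hw hw0 (fun k => e (φ k)) (fun k => he0 _) (fun k => he1 _)
    (he.comp hφ.tendsto_atTop) (fun k => stp T (φ k) (dsc T β (φ k))) β (fun k => stp_meas)
    (fun k t => stp_nonneg (dsc_nonneg hT hβ.mono _) t) (fun k t => hbdd2 _ t) (by
      rw [ae_restrict_iff' measurableSet_Ioc]
      have hne : ∀ᵐ r : ℝ, r ≠ T := by
        rw [ae_iff]; simp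
      filter_upwards [ae_cont hβ.mono, hne] with t ht htT hmem
      exact (dsc_tendsto hT hβ.zero ⟨hmem.1.le, lt_of_le_of_ne hmem.2 htT⟩ ht).comp
        hφ.tendsto_atTop)
  refine le_of_tendsto_of_tendsto' hL hR fun k => ?_
  exact hopt (φ k) (dsc T β (φ k)) (dsc_nonneg hT hβ.mono _)
    (by rw [dsc_sum hT hβ.zero, hβT'])

/-- main theorem for integrable weights -/
theorem main_int (hT : 0 < T) (hδ : 0 < δ) {c w : ℝ → ℝ}
    (hc : IntervalIntegrable c volume 0 T) (hc0 : ∀ t, 0 ≤ c t)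
    (hw : IntervalIntegrable w volume 0 T) (hw0 : ∀ t, 0 ≤ w t)
    {η1 η2 : ℝ} (hη1 : 0 < η1) (hη : η1 < η2)
    (hu1 : ∀ α β, IsOpt T δ c w η1 α → IsOpt T δ c w η1 β → α = β)
    (hu2 : ∀ α β, IsOpt T δ c w η2 α → IsOpt T δ c w η2 β → α = β)
    {α1 α2 : ℝ → ℝ} (h1 : IsOpt T δ c w η1 α1) (h2 : IsOpt T δ c w η2 α2) :
    Monotone (fun t => α2 t - α1 t) := by
  set b1 := η1 * T with hb1
  set b2 := η2 * T with hb2
  have hb1p : 0 < b1 := mul_pos hη1 hT
  have hb12 : b1 < b2 := mul_lt_mul_of_pos_right hη hT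
  have hb2p : 0 < b2 := hb1p.trans hb12
  let e : ℕ → ℝ := fun n => 1 / ((n : ℝ) + 1)
  have he0 : ∀ n, 0 < e n := fun n => by simp only [e]; positivity
  have he1 : ∀ n, e n ≤ 1 := fun n => by
    simp only [e]
    rw [div_le_one (by positivity)]
    have : (0 : ℝ) ≤ n := Nat.cast_nonneg n
    linarith
  have he : Tendsto e atTop (𝓝 0) := tendsto_one_div_add_atTop_nhds_zero_nat
  have hex := fun n : ℕ => exists_opt_pair hT hδ
    (hc.add (intervalIntegrable_const (c := e n))) (hw.add (intervalIntegrable_const (c := e n)))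
    (fun t => add_pos_of_nonneg_of_pos (hc0 t) (he0 n))
    (fun t => add_pos_of_nonneg_of_pos (hw0 t) (he0 n)) hb1p hb12 n
  choose ν1 ν2 hν1 hν12 hs1 hs2 ho1 ho2 using hex
  have hν2 : ∀ n j, 0 ≤ ν2 n j := fun n j => (hν1 n j).trans (hν12 n j)
  -- Helly twice
  obtain ⟨φ1, hφ1, g1, hg1m, hg1r, hg1b, hg1l⟩ := helly b1 (fun n => stp T n (ν1 n))
    (fun n => stp_mono (hν1 n)) (fun n x => ⟨stp_nonneg (hν1 n) x, by
      have := stp_le (T := T) (hν1 n) x; rwa [hs1 n] at this⟩)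
  obtain ⟨φ2, hφ2, g2, hg2m, hg2r, hg2b, hg2l⟩ := helly b2 (fun n => stp T (φ1 n) (ν2 (φ1 n)))
    (fun n => stp_mono (hν2 _)) (fun n x => ⟨stp_nonneg (hν2 _) x, by
      have := stp_le (T := T) (hν2 (φ1 n)) x; rwa [hs2 _] at this⟩)
  set φ : ℕ → ℕ := fun k => φ1 (φ2 k) with hφdef
  have hφ : StrictMono φ := hφ1.comp hφ2
  have hl1 : ∀ x, ContinuousAt g1 x →
      Tendsto (fun k => stp T (φ k) (ν1 (φ k)) x) atTop (𝓝 (g1 x)) := fun x hx =>
    (hg1l x hx).comp hφ2.tendsto_atTop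
  have hl2 : ∀ x, ContinuousAt g2 x →
      Tendsto (fun k => stp T (φ k) (ν2 (φ k)) x) atTop (𝓝 (g2 x)) := hg2l
  have o1 := limit_opt hT hδ hb1p hc hc0 hw hw0 e (fun n => (he0 n).le) he1 he φ hφ ν1 hν1 hs1
    ho1 g1 hg1m hg1r hg1b hl1
  have o2 := limit_opt hT hδ hb2p hc hc0 hw hw0 e (fun n => (he0 n).le) he1 he φ hφ ν2 hν2 hs2
    ho2 g2 hg2m hg2r hg2b hl2
  rw [hb1, mul_div_cancel_right₀ _ hT.ne'] at o1
  rw [hb2, mul_div_cancel_right₀ _ hT.ne'] at o2
  have E1 := hu1 _ _ h1 o1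
  have E2 := hu2 _ _ h2 o2
  -- good points
  have hgood : ∀ u v : ℝ, u < v → ∃ x, u < x ∧ x < v ∧ ContinuousAt g1 x ∧ ContinuousAt g2 x := by
    intro u v huv
    have hcnt : ({x | ¬ ContinuousAt g1 x} ∪ {x | ¬ ContinuousAt g2 x}).Countable :=
      hg1m.countable_not_continuousAt.union hg2m.countable_not_continuousAt
    obtain ⟨x, hx1, hx2⟩ := (hcnt.dense_compl ℝ).exists_between huv
    simp only [mem_compl_iff, mem_union, mem_ofPred_eq, not_or, not_not] at hx1
    exact ⟨x, hx2.1, hx2.2, hx1.1, hx1.2⟩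
  -- the difference is monotone
  set Δ : ℝ → ℝ := fun x => g2 x - g1 x with hΔ
  have hΔgood : ∀ x y, x ≤ y → ContinuousAt g1 x → ContinuousAt g2 x → ContinuousAt g1 y →
      ContinuousAt g2 y → Δ x ≤ Δ y := by
    intro x y hxy a1 a2 a3 a4
    have t1 := (hl2 x a2).sub (hl1 x a1)
    have t2 := (hl2 y a4).sub (hl1 y a3)
    refine le_of_tendsto_of_tendsto' t1 t2 fun k => ?_
    have hmono : Monotone (stp T (φ k) (fun j => ν2 (φ k) j - ν1 (φ k) j)) :=
      stp_mono fun j => sub_nonneg.mpr (hν12 _ j)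
    have heq : ∀ z, stp T (φ k) (fun j => ν2 (φ k) j - ν1 (φ k) j) z
        = stp T (φ k) (ν2 (φ k)) z - stp T (φ k) (ν1 (φ k)) z := by
      intro z
      unfold stp
      rw [← Finset.sum_sub_distrib]
      refine Finset.sum_congr rfl fun j _ => ?_
      split_ifs <;> ring
    have := hmono hxy
    rwa [heq, heq] at this
  have hΔr : ∀ x, ContinuousWithinAt Δ (Ici x) x := fun x => (hg2r x).sub (hg1r x)
  have hΔm : Monotone Δ := by
    intro x y hxy
    rcases hxy.eq_or_lt with rfl | hlt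
    · exact le_rfl
    by_contra hcon
    push Not at hcon
    set mid := (Δ x + Δ y) / 2 with hmid
    have m1 : mid < Δ x := by rw [hmid]; linarith
    have m2 : Δ y < mid := by rw [hmid]; linarith
    have n1 : ∀ᶠ z in 𝓝[≥] x, mid < Δ z := (hΔr x).eventually (lt_mem_nhds m1)
    have n2 : ∀ᶠ z in 𝓝[≥] y, Δ z < mid := (hΔr y).eventually (gt_mem_nhds m2)
    obtain ⟨u, hu, hu'⟩ := mem_nhdsGE_iff_exists_Ico_subset.mp n1
    obtain ⟨v, hv, hv'⟩ := mem_nhdsGE_iff_exists_Ico_subset.mp n2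
    obtain ⟨x', q1, q2, q3, q4⟩ := hgood x (min u y) (lt_min hu hlt)
    obtain ⟨y', r1, r2, r3, r4⟩ := hgood y v hv
    have s1 : mid < Δ x' := hu' ⟨q1.le, q2.trans_le (min_le_left _ _)⟩
    have s2 : Δ y' < mid := hv' ⟨r1.le, r2⟩
    have s3 := hΔgood x' y' ((q2.trans_le (min_le_right _ _)).le.trans r1.le) q3 q4 r3 r4
    linarith
  have hg1neg : ∀ x, x < 0 → g1 x = 0 := by
    intro x hx
    obtain ⟨x', q1, q2, q3, q4⟩ := hgood x 0 hx
    have h3 := hl1 x' q3
    have h4 : g1 x' = 0 := by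
      refine tendsto_nhds_unique h3 ?_
      have : (fun k => stp T (φ k) (ν1 (φ k)) x') = fun _ => (0 : ℝ) := by
        ext k; exact stp_of_neg hT q2.le
      rw [this]; exact tendsto_const_nhds
    exact le_antisymm ((hg1m q1.le).trans h4.le) (hg1b x).1
  have hg2neg : ∀ x, x < 0 → g2 x = 0 := by
    intro x hx
    obtain ⟨x', q1, q2, q3, q4⟩ := hgood x 0 hx
    have h3 := hl2 x' q4
    have h4 : g2 x' = 0 := by
      refine tendsto_nhds_unique h3 ?_
      have : (fun k => stp T (φ k) (ν2 (φ k)) x') = fun _ => (0 : ℝ) := by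
        ext k; exact stp_of_neg hT q2.le
      rw [this]; exact tendsto_const_nhds
    exact le_antisymm ((hg2m q1.le).trans h4.le) (hg2b x).1
  have hΔ0 : 0 ≤ Δ 0 := by
    have h3 := hΔm (show (-1 : ℝ) ≤ 0 by norm_num)
    have h4 : Δ (-1) = 0 := by
      simp only [hΔ]; rw [hg1neg _ (by norm_num), hg2neg _ (by norm_num)]; ring
    linarith
  have hΔT : ∀ x, x < T → Δ x ≤ b2 - b1 := by
    intro x hx
    obtain ⟨y, q1, q2, q3, q4⟩ := hgood T (T + 1) (lt_add_one T)
    have e1 : g1 y = b1 := by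
      refine tendsto_nhds_unique (hl1 y q3) ?_
      have : (fun k => stp T (φ k) (ν1 (φ k)) y) = fun _ => b1 := by
        ext k; rw [stp_of_ge hT q1.le, hs1]
      rw [this]; exact tendsto_const_nhds
    have e2 : g2 y = b2 := by
      refine tendsto_nhds_unique (hl2 y q4) ?_
      have : (fun k => stp T (φ k) (ν2 (φ k)) y) = fun _ => b2 := by
        ext k; rw [stp_of_ge hT q1.le, hs2]
      rw [this]; exact tendsto_const_nhds
    have := hΔm (hx.le.trans q1.le)
    simp only [hΔ] at this ⊢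
    rw [e1, e2] at this
    exact this
  -- conclusion
  have hfin : Monotone (ext T (b2 - b1) (fun x => Δ x - Δ 0)) := by
    refine ext_mono hT ?_ ?_ ?_
    · intro x _ y _ hxy
      have := hΔm hxy
      simp only
      linarith
    · intro x hx
      have := hΔm hx.1
      linarith
    · intro x hx
      have := hΔT x hx.2
      linarith
  have heq : (fun t => α2 t - α1 t) = ext T (b2 - b1) (fun x => Δ x - Δ 0) := by
    ext t
    rw [E1, E2]
    unfold ext
    simp only [hΔ]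
    ring
  rw [heq]
  exact hfin

/-- if the weight is not integrable, all costs are equal to `0` -/
lemma cost_zero (hT : 0 < T) (hδ : 0 < δ) {c w : ℝ → ℝ}
    (hc : IntervalIntegrable c volume 0 T) (hc0 : ∀ t, 0 ≤ c t)
    (hwm : Measurable w) (hwn : ¬ IntervalIntegrable w volume 0 T)
    {α : ℝ → ℝ} (hα : Cls T α) : cost T δ c w α = 0 := by
  set b := α T with hb
  have hb0 : 0 ≤ b := by have := hα.mono hT.le; rwa [hα.zero] at this
  have hq := q_lt_one hT hδ hb0
  set q := Real.exp (-b - δ * T) with hqd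
  have hq0 : 0 < q := Real.exp_pos _
  have hrange : ∀ t, 0 ≤ t → t ≤ T → 0 ≤ α t ∧ α t ≤ b := fun t h0 h1 => by
    have := hα.mono h0
    rw [hα.zero] at this
    exact ⟨this, hα.mono h1⟩
  -- clip α
  let f : ℝ → ℝ := fun t => min (α t) b
  have hfm : Measurable f := hα.mono.measurable.min measurable_const
  have hfb : ∀ t, f t ≤ b := fun t => min_le_right _ _
  have hfα : ∀ t, 0 ≤ t → t < T → f t = α t := fun t h0 h1 => min_eq_left (hrange t h0 h1.le).2
  have hSf : ∀ t, 0 ≤ t → t < T → Sfun T δ c α t = Sg T δ b c f t := fun t h0 h1 =>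
    (Sg_congr hfα h0 h1).symm
  have hcost : cost T δ c w α = (1 / T) * ∫ t in (0 : ℝ)..T, w t * Sg T δ b c f t := by
    unfold cost
    congr 1
    refine intervalIntegral.integral_congr_ae ?_
    have : ∀ᵐ r : ℝ, r ≠ T := by
      rw [ae_iff]; simp
    filter_upwards [this] with t ht hmem
    rw [uIoc_of_le hT.le] at hmem
    rw [hSf t hmem.1.le (lt_of_le_of_ne hmem.2 ht)]
  rw [hcost]
  have hCi0 : 0 ≤ ∫ r in (0 : ℝ)..T, c r :=
    intervalIntegral.integral_nonneg hT.le fun r _ => hc0 r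
  -- lower bound of Sg
  have hlow : ∀ t, 0 ≤ t → t ≤ T → Real.exp (-b - δ * T) * (q * ∫ r in (0 : ℝ)..T, c r)
      ≤ Sg T δ b c f t := by
    intro t h0 h1
    have hf0 : ∀ r, 0 ≤ r → r ≤ T → 0 ≤ f r := fun r a1 a2 => le_min (hrange r a1 a2).1 hb0
    have hcs : ∀ u v, 0 ≤ u → u ≤ v → v ≤ T → IntervalIntegrable c volume u v := by
      intro u v a1 a2 a3
      refine hc.mono_set ?_
      rw [uIcc_of_le hT.le, uIcc_of_le a2]
      exact Icc_subset_Icc a1 a3
    have hIle : ∀ u v, 0 ≤ u → u ≤ v → v ≤ T →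
        ∫ r in u..v, c r ≤ ∫ r in u..v, c r * Real.exp (f r + δ * r) := by
      intro u v a1 a2 a3
      refine intervalIntegral.integral_mono_on a2 (hcs u v a1 a2 a3)
        (int_aux_sub hT hδ hc hfm hfb ⟨a1, a2.trans a3⟩ ⟨a1.trans a2, a3⟩) ?_
      intro r hr
      have h3 : 1 ≤ Real.exp (f r + δ * r) := by
        rw [Real.one_le_exp_iff]
        have := hf0 r (a1.trans hr.1) (hr.2.trans a3)
        have := mul_nonneg hδ.le (a1.trans hr.1)
        linarith
      calc c r = c r * 1 := (mul_one _).symm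
        _ ≤ _ := mul_le_mul_of_nonneg_left h3 (hc0 r)
    have i1 := hIle 0 t le_rfl h0 h1
    have i2 := hIle t T h0 h1 le_rfl
    have i3 := intervalIntegral.integral_add_adjacent_intervals (hcs 0 t le_rfl h0 h1)
      (hcs t T h0 h1 le_rfl)
    have i4 : 0 ≤ ∫ r in (0 : ℝ)..t, c r := intervalIntegral.integral_nonneg h0 fun r _ => hc0 r
    have i5 : 0 ≤ ∫ r in t..T, c r := intervalIntegral.integral_nonneg h1 fun r _ => hc0 r
    unfold Sg
    refine mul_le_mul ?_ ?_ (mul_nonneg hq0.le hCi0)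
      (div_nonneg (Real.exp_pos _).le (by linarith))
    · rw [le_div_iff₀ (by linarith)]
      have h5 : Real.exp (-b - δ * T) ≤ Real.exp (-f t - δ * t) := by
        rw [Real.exp_le_exp]
        have := hfb t
        have := mul_le_mul_of_nonneg_left h1 hδ.le
        linarith
      have h6 : Real.exp (-b - δ * T) * (1 - Real.exp (-b - δ * T)) ≤ Real.exp (-b - δ * T) := by
        nlinarith [Real.exp_pos (-b - δ * T)]
      exact h6.trans h5
    · rw [← i3, mul_add]
      refine add_le_add ?_ (mul_le_mul_of_nonneg_left i2 hq0.le)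
      calc q * ∫ r in (0 : ℝ)..t, c r ≤ 1 * ∫ r in (0 : ℝ)..t, c r :=
            mul_le_mul_of_nonneg_right hq.le i4
        _ ≤ _ := by rw [one_mul]; exact i1
  rcases hCi0.eq_or_lt with hz | hpos
  · -- c vanishes a.e.
    have hcz : c =ᵐ[volume.restrict (Ioc 0 T)] 0 := by
      rw [intervalIntegral.integral_of_le hT.le] at hz
      exact (integral_eq_zero_iff_of_nonneg (fun r => hc0 r)
        ((intervalIntegrable_iff_integrableOn_Ioc_of_le hT.le).mp hc)).mp hz.symm
    have hIz : ∀ u v, 0 ≤ u → u ≤ v → v ≤ T →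
        ∫ r in u..v, c r * Real.exp (f r + δ * r) = 0 := by
      intro u v a1 a2 a3
      rw [intervalIntegral.integral_of_le a2]
      rw [setIntegral_congr_ae (g := fun _ => (0 : ℝ)) measurableSet_Ioc]
      · simp
      · rw [Filter.EventuallyEq, ae_restrict_iff' measurableSet_Ioc] at hcz
        filter_upwards [hcz] with r hr hmem
        rw [hr ⟨lt_of_le_of_lt a1 hmem.1, hmem.2.trans a3⟩]
        simp
    have : ∫ t in (0 : ℝ)..T, w t * Sg T δ b c f t = 0 := by
      rw [intervalIntegral.integral_congr (g := fun _ => (0 : ℝ))]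
      · simp
      · intro t ht
        rw [uIcc_of_le hT.le] at ht
        show w t * Sg T δ b c f t = 0
        unfold Sg
        rw [hIz 0 t le_rfl ht.1 ht.2, hIz t T ht.1 ht.2 le_rfl]
        simp
    rw [this, mul_zero]
  · have hκ : 0 < Real.exp (-b - δ * T) * (q * ∫ r in (0 : ℝ)..T, c r) := by positivity
    set κ := Real.exp (-b - δ * T) * (q * ∫ r in (0 : ℝ)..T, c r) with hκd
    rw [intervalIntegral.integral_undef, mul_zero]
    intro hint
    apply hwn
    rw [intervalIntegrable_iff_integrableOn_Ioc_of_le hT.le] at hint ⊢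
    have h1 : Integrable (fun t => (1 / κ) * (w t * Sg T δ b c f t)) (volume.restrict (Ioc 0 T)) :=
      hint.const_mul _
    refine h1.mono hwm.aestronglyMeasurable ?_
    rw [ae_restrict_iff' measurableSet_Ioc]
    refine Eventually.of_forall fun t ht => ?_
    have h2 := hlow t ht.1.le ht.2
    have h3 : 0 < Sg T δ b c f t := lt_of_lt_of_le hκ h2
    rw [norm_mul, norm_mul, Real.norm_of_nonneg (by positivity : (0 : ℝ) ≤ 1 / κ),
      Real.norm_of_nonneg h3.le]
    have h4 : κ * ‖w t‖ ≤ ‖w t‖ * Sg T δ b c f t := by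
      rw [mul_comm]; exact mul_le_mul_of_nonneg_left h2 (norm_nonneg _)
    calc ‖w t‖ = (1 / κ) * (κ * ‖w t‖) := by field_simp
      _ ≤ _ := mul_le_mul_of_nonneg_left h4 (by positivity)

/-- uniqueness of minimisers forces the weight to be integrable -/
lemma integrable_of_unique (hT : 0 < T) (hδ : 0 < δ) {c w : ℝ → ℝ}
    (hc : IntervalIntegrable c volume 0 T) (hc0 : ∀ t, 0 ≤ c t)
    (hwm : Measurable w) {η : ℝ} (hη : 0 < η)
    (hu : ∀ α β, IsOpt T δ c w η α → IsOpt T δ c w η β → α = β) :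
    IntervalIntegrable w volume 0 T := by
  by_contra hwn
  have hb : 0 < η * T := mul_pos hη hT
  have hopt : ∀ α, Cls T α → α T = η * T → IsOpt T δ c w η α := by
    intro α hα hαT
    refine ⟨hα, by rw [hαT, mul_div_cancel_right₀ _ hT.ne'], fun β hβ _ => ?_⟩
    rw [cost_zero hT hδ hc hc0 hwm hwn hα, cost_zero hT hδ hc hc0 hwm hwn hβ]
  have hA : Cls T (fun t => η * t) := by
    refine ⟨fun s t hst => mul_le_mul_of_nonneg_left hst hη.le, fun t => by fun_prop, by simp,
      fun t => by ring⟩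
  have hBT : ext T (η * T) (fun _ => (0 : ℝ)) T = η * T := by
    have := ext_add (b := η * T) hT (G := fun _ => (0 : ℝ)) 0
    rw [zero_add, ext_of_mem hT le_rfl hT] at this
    rw [this]; ring
  have hB : Cls T (ext T (η * T) (fun _ => (0 : ℝ))) := by
    refine ⟨ext_mono hT (fun _ _ _ _ _ => le_rfl) (fun _ _ => le_rfl) (fun _ _ => hb.le),
      ext_rc hT (fun _ => continuousWithinAt_const), ext_of_mem hT le_rfl hT, fun t => ?_⟩
    rw [hBT]
    exact ext_add hT t
  have heq := hu _ _ (hopt _ hA rfl) (hopt _ hB hBT)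
  have h1 := congrFun heq (T / 2)
  rw [ext_of_mem hT (by linarith) (by linarith)] at h1
  have : 0 < η * (T / 2) := by positivity
  linarith

end R261.Eff
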