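import Pool.Agent.R261.Eff.Conv
import Pool.Agent.R261.Eff.Fin

namespace R261.Eff

open MeasureTheory Filter Topology Set

/-- step function with jumps `ν j` at `(j+1) T/(n+1)` -/
noncomputable def stp (T : ℝ) (n : ℕ) (ν : Fin (n + 1) → ℝ) (t : ℝ) : ℝ :=
  ∑ j : Fin (n + 1), if (((j : ℕ) : ℝ) + 1) * (T / (n + 1)) ≤ t then ν j else 0

/-- partial sums -/
noncomputable def psum (n : ℕ) (ν : Fin (n + 1) → ℝ) (m : ℕ) : ℝ :=
  ∑ j : Fin (n + 1), if (j : ℕ) < m then ν j else 0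

variable {T δ : ℝ} {n : ℕ}

lemma stp_mono {ν : Fin (n + 1) → ℝ} (hν : ∀ j, 0 ≤ ν j) : Monotone (stp T n ν) := by
  intro s t hst
  refine Finset.sum_le_sum fun j _ => ?_
  split_ifs with h1 h2 h2
  · exact le_rfl
  · exact absurd (h1.trans hst) h2
  · exact hν j
  · exact le_rfl

lemma stp_nonneg {ν : Fin (n + 1) → ℝ} (hν : ∀ j, 0 ≤ ν j) (t : ℝ) : 0 ≤ stp T n ν t := by
  refine Finset.sum_nonneg fun j _ => ?_
  split_ifs
  · exact hν j
  · exact le_rfl

lemma stp_le {ν : Fin (n + 1) → ℝ} (hν : ∀ j, 0 ≤ ν j) (t : ℝ) : stp T n ν t ≤ ∑ j, ν j := by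
  refine Finset.sum_le_sum fun j _ => ?_
  split_ifs
  · exact le_rfl
  · exact hν j

lemma stp_of_neg (hT : 0 < T) {ν : Fin (n + 1) → ℝ} {t : ℝ} (ht : t ≤ 0) : stp T n ν t = 0 := by
  refine Finset.sum_eq_zero fun j _ => ?_
  rw [if_neg]
  push Not
  refine lt_of_le_of_lt ht ?_
  positivity

lemma stp_of_ge (hT : 0 < T) {ν : Fin (n + 1) → ℝ} {t : ℝ} (ht : T ≤ t) :
    stp T n ν t = ∑ j, ν j := by
  refine Finset.sum_congr rfl fun j _ => ?_
  rw [if_pos]
  refine le_trans ?_ ht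
  rw [mul_div_assoc', div_le_iff₀ (by positivity), mul_comm]
  refine mul_le_mul_of_nonneg_left ?_ hT.le
  have := j.2
  have h2 : ((j : ℕ) + 1 : ℕ) ≤ n + 1 := by omega
  exact_mod_cast h2

lemma stp_cell (hT : 0 < T) {ν : Fin (n + 1) → ℝ} {m : ℕ} {t : ℝ}
    (h1 : (m : ℝ) * (T / (n + 1)) ≤ t) (h2 : t < ((m : ℝ) + 1) * (T / (n + 1))) :
    stp T n ν t = psum n ν m := by
  have hh : 0 < T / (n + 1) := by positivity
  refine Finset.sum_congr rfl fun j _ => ?_
  have hiff : ((j : ℕ) + 1 : ℝ) * (T / (n + 1)) ≤ t ↔ (j : ℕ) < m := by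
    constructor
    · intro h
      have h3 := lt_of_le_of_lt h h2
      have h4 := lt_of_mul_lt_mul_right h3 hh.le
      have h5 : (((j : ℕ) + 1 : ℕ) : ℝ) < ((m + 1 : ℕ) : ℝ) := by push_cast; exact h4
      have h6 : (j : ℕ) + 1 < m + 1 := by exact_mod_cast h5
      omega
    · intro h
      refine le_trans (mul_le_mul_of_nonneg_right ?_ hh.le) h1
      exact_mod_cast h
  simp only [hiff]

lemma psum_succ {ν : Fin (n + 1) → ℝ} (j : Fin (n + 1)) :
    psum n ν ((j : ℕ) + 1) = psum n ν j + ν j := by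
  unfold psum
  have : ∀ i : Fin (n + 1), (if (i : ℕ) < (j : ℕ) + 1 then ν i else 0)
      = (if (i : ℕ) < (j : ℕ) then ν i else 0) + (if i = j then ν i else 0) := by
    intro i
    by_cases h : i = j
    · subst h; simp
    · have h' : (i : ℕ) ≠ j := fun h2 => h (Fin.ext h2)
      by_cases h3 : (i : ℕ) < j
      · rw [if_pos (by omega), if_pos h3, if_neg h, add_zero]
      · rw [if_neg (by omega), if_neg h3, if_neg h, add_zero]
  simp only [this, Finset.sum_add_distrib, Finset.sum_ite_eq', Finset.mem_univ, if_true]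

lemma psum_zero {ν : Fin (n + 1) → ℝ} : psum n ν 0 = 0 := by
  simp [psum]

lemma psum_diff (α : ℝ → ℝ) (h : ℝ) (m : ℕ) (hm : m ≤ n + 1) :
    psum n (fun j => α (((j : ℕ) + 1) * h) - α ((j : ℕ) * h)) m = α (m * h) - α 0 := by
  induction m with
  | zero => simp [psum_zero]
  | succ m ih =>
    have := psum_succ (n := n) (ν := fun j => α (((j : ℕ) + 1) * h) - α ((j : ℕ) * h)) ⟨m, hm⟩
    simp only at this
    rw [this, ih (by omega)]
    push_cast
    ring

lemma stp_meas {ν : Fin (n + 1) → ℝ} : Measurable (stp T n ν) := by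
  unfold stp
  refine Finset.measurable_sum _ fun j _ => ?_
  exact Measurable.ite measurableSet_Ici measurable_const measurable_const

/-- one step of the flow -/
lemma Sg_step {b : ℝ} (hT : 0 < T) (hδ : 0 < δ) (hb : 0 ≤ b) {c : ℝ → ℝ}
    (hc : IntervalIntegrable c volume 0 T) {f : ℝ → ℝ} (hfm : Measurable f)
    (hf : ∀ t, f t ≤ b) {a t F : ℝ} (ha : 0 ≤ a) (hat : a ≤ t) (ht : t ≤ T)
    (hF : ∀ r, a < r → r < t → f r = F) :
    Sg T δ b c f t = Real.exp (-f t) * (Real.exp (-δ * (t - a)) * (Real.exp (f a) * Sg T δ b c f a)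
      + Real.exp F * ∫ r in a..t, c r * Real.exp (-δ * (t - r))) := by
  have hq := q_lt_one hT hδ hb
  have hi1 := int_aux_sub hT hδ hc hfm hf (u := 0) (v := a) ⟨le_rfl, hT.le⟩ ⟨ha, hat.trans ht⟩
  have hi2 := int_aux_sub hT hδ hc hfm hf (u := a) (v := t) ⟨ha, hat.trans ht⟩ ⟨ha.trans hat, ht⟩
  have hi3 := int_aux_sub hT hδ hc hfm hf (u := t) (v := T) ⟨ha.trans hat, ht⟩ ⟨hT.le, le_rfl⟩
  have e1 := intervalIntegral.integral_add_adjacent_intervals hi1 hi2
  have e2 := intervalIntegral.integral_add_adjacent_intervals hi2 hi3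
  have e3 : (∫ r in a..t, c r * Real.exp (f r + δ * r))
      = Real.exp F * (Real.exp (δ * t) * ∫ r in a..t, c r * Real.exp (-δ * (t - r))) := by
    rw [← intervalIntegral.integral_const_mul, ← intervalIntegral.integral_const_mul]
    refine intervalIntegral.integral_congr_ae ?_
    have : ∀ᵐ r : ℝ, r ≠ t := by
      rw [ae_iff]; simp
    filter_upwards [this] with r hr hmem
    rw [uIoc_of_le hat] at hmem
    rw [hF r hmem.1 (lt_of_le_of_ne hmem.2 hr),
      show Real.exp F * (Real.exp (δ * t) * (c r * Real.exp (-δ * (t - r))))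
        = c r * (Real.exp F * (Real.exp (δ * t) * Real.exp (-δ * (t - r)))) by ring,
      ← Real.exp_add, ← Real.exp_add]
    congr 2
    ring
  unfold Sg
  rw [← e1, ← e2, e3]
  set P := ∫ r in (0 : ℝ)..a, c r * Real.exp (f r + δ * r)
  set Q := ∫ r in t..T, c r * Real.exp (f r + δ * r)
  set Y := ∫ r in a..t, c r * Real.exp (-δ * (t - r))
  set q := Real.exp (-b - δ * T)
  have h1 : Real.exp (-f t - δ * t) = Real.exp (-f t) * Real.exp (-δ * t) := by
    rw [← Real.exp_add]; congr 1; ring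
  have h2 : Real.exp (-f a - δ * a) = Real.exp (-f a) * Real.exp (-δ * a) := by
    rw [← Real.exp_add]; congr 1; ring
  have h3 : Real.exp (-δ * (t - a)) = Real.exp (-δ * t) * Real.exp (δ * a) := by
    rw [← Real.exp_add]; congr 1; ring
  have h4 : Real.exp (f a) * Real.exp (-f a) = 1 := by rw [← Real.exp_add]; simp
  have h5 : Real.exp (δ * a) * Real.exp (-δ * a) = 1 := by rw [← Real.exp_add]; simp
  have h6 : Real.exp (-δ * t) * Real.exp (δ * t) = 1 := by rw [← Real.exp_add]; simp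
  have hne : 1 - q ≠ 0 := by
    have : q < 1 := hq
    linarith
  rw [h1, h2, h3]
  set X := Real.exp F * (Real.exp (δ * t) * Y) with hX
  have e5 : Real.exp (-f t) * (Real.exp (-δ * t) * Real.exp (δ * a) * (Real.exp (f a) *
      (Real.exp (-f a) * Real.exp (-δ * a) / (1 - q) * (P + q * (X + Q)))) + Real.exp F * Y)
      = Real.exp (-f t) * (Real.exp (-δ * t) * (Real.exp (δ * a) * Real.exp (-δ * a)) *
      ((Real.exp (f a) * Real.exp (-f a)) * (1 / (1 - q)) * (P + q * (X + Q)))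
      + (Real.exp (-δ * t) * Real.exp (δ * t)) * (Real.exp F * Y)) := by
    rw [h6]; ring
  rw [e5, h4, h5]
  have e6 : (Real.exp (-δ * t) * Real.exp (δ * t)) * (Real.exp F * Y) = Real.exp (-δ * t) * X := by
    rw [hX]; ring
  rw [e6]
  field_simp
  ring

/-- periodicity at the endpoint -/
lemma Sg_end {b : ℝ} {c : ℝ → ℝ} {f : ℝ → ℝ} (hf0 : f 0 = 0) (hfT : f T = b) :
    Sg T δ b c f T = Sg T δ b c f 0 := by
  unfold Sg
  rw [hf0, hfT]
  simp only [intervalIntegral.integral_same, mul_zero, add_zero, zero_add, neg_zero, sub_zero,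
    Real.exp_zero]
  ring

/-- weights of the cells -/
noncomputable def cw (T δ : ℝ) (n : ℕ) (c : ℝ → ℝ) (j : Fin (n + 1)) : ℝ :=
  ∫ r in ((j : ℕ) * (T / (n + 1)) : ℝ)..(((j : ℕ) + 1) * (T / (n + 1))),
    c r * Real.exp (-δ * (((j : ℕ) + 1) * (T / (n + 1)) - r))

noncomputable def ww (T δ : ℝ) (n : ℕ) (w : ℝ → ℝ) (j : Fin (n + 1)) : ℝ :=
  ∫ t in ((j : ℕ) * (T / (n + 1)) : ℝ)..(((j : ℕ) + 1) * (T / (n + 1))),
    w t * Real.exp (-δ * (t - (j : ℕ) * (T / (n + 1))))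

lemma cell_le (hT : 0 < T) (j : Fin (n + 1)) :
    0 ≤ ((j : ℕ) * (T / (n + 1)) : ℝ) ∧
    ((j : ℕ) * (T / (n + 1)) : ℝ) < (((j : ℕ) + 1) * (T / (n + 1))) ∧
    (((j : ℕ) + 1) * (T / (n + 1)) : ℝ) ≤ T := by
  have hh : 0 < T / (n + 1) := by positivity
  refine ⟨by positivity, by nlinarith, ?_⟩
  rw [mul_div_assoc', div_le_iff₀ (by positivity), mul_comm]
  refine mul_le_mul_of_nonneg_left ?_ hT.le
  have h2 : ((j : ℕ) + 1 : ℕ) ≤ n + 1 := by have := j.2; omega
  exact_mod_cast h2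

lemma sol_stp (hT : 0 < T) (hδ : 0 < δ) {c : ℝ → ℝ}
    (hc : IntervalIntegrable c volume 0 T) {ν : Fin (n + 1) → ℝ} (hν : ∀ j, 0 ≤ ν j) :
    Sol (finRotate (n + 1)) (fun _ => Real.exp (-δ * (T / (n + 1)))) (cw T δ n c) ν
      (fun j => Sg T δ (∑ j, ν j) c (stp T n ν) ((j : ℕ) * (T / (n + 1)))) := by
  intro j
  obtain ⟨h0, h1, h2⟩ := cell_le hT j (n := n)
  have hb : 0 ≤ ∑ j, ν j := Finset.sum_nonneg fun j _ => hν j
  have hh : 0 < T / (n + 1) := by positivity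
  have hstep := Sg_step hT hδ hb hc (stp_meas (T := T) (ν := ν)) (stp_le hν) h0 h1.le h2
    (F := psum n ν j) (fun r hr1 hr2 => stp_cell hT hr1.le hr2)
  have ha : stp T n ν ((j : ℕ) * (T / (n + 1))) = psum n ν j :=
    stp_cell hT le_rfl h1
  have hb' : stp T n ν (((j : ℕ) + 1) * (T / (n + 1))) = psum n ν j + ν j := by
    rw [← psum_succ]
    have := stp_cell (n := n) hT (ν := ν) (m := (j : ℕ) + 1) (t := ((j : ℕ) + 1) * (T / (n + 1)))
      (by push_cast; exact le_rfl) (by push_cast; nlinarith)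
    exact this
  have hkey : Sg T δ (∑ j, ν j) c (stp T n ν) (((j : ℕ) + 1) * (T / (n + 1)))
      = Real.exp (-ν j) * (Real.exp (-δ * (T / (n + 1))) *
        Sg T δ (∑ j, ν j) c (stp T n ν) ((j : ℕ) * (T / (n + 1))) + cw T δ n c j) := by
    rw [hstep, ha, hb']
    have e1 : Real.exp (-(psum n ν j + ν j)) = Real.exp (-ν j) * Real.exp (-psum n ν j) := by
      rw [← Real.exp_add]; congr 1; ring
    have e2 : Real.exp (-psum n ν j) * Real.exp (psum n ν j) = 1 := by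
      rw [← Real.exp_add]; simp
    have e3 : ((j : ℕ) + 1) * (T / (n + 1)) - (j : ℕ) * (T / (n + 1)) = T / (n + 1) := by ring
    rw [e1, e3]
    unfold cw
    set Y := ∫ r in ((j : ℕ) * (T / (n + 1)) : ℝ)..(((j : ℕ) + 1) * (T / (n + 1))),
      c r * Real.exp (-δ * (((j : ℕ) + 1) * (T / (n + 1)) - r))
    calc Real.exp (-ν j) * Real.exp (-psum n ν j) * (Real.exp (-δ * (T / (n + 1))) *
          (Real.exp (psum n ν j) * Sg T δ (∑ j, ν j) c (stp T n ν) ((j : ℕ) * (T / (n + 1)))) +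
          Real.exp (psum n ν j) * Y)
        = Real.exp (-ν j) * ((Real.exp (-psum n ν j) * Real.exp (psum n ν j)) *
          (Real.exp (-δ * (T / (n + 1))) *
          Sg T δ (∑ j, ν j) c (stp T n ν) ((j : ℕ) * (T / (n + 1))) + Y)) := by ring
      _ = _ := by rw [e2, one_mul]
  by_cases hj : (j : ℕ) = n
  · have hlast : j = Fin.last n := Fin.ext (by simpa using hj)
    have hz : (finRotate (n + 1) j) = 0 := by rw [hlast]; simp
    have hT' : (((j : ℕ) : ℝ) + 1) * (T / (n + 1)) = T := by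
      rw [hj]; field_simp
    have hend := Sg_end (T := T) (δ := δ) (b := ∑ j, ν j) (c := c) (f := stp T n ν)
      (stp_of_neg hT le_rfl) (stp_of_ge hT le_rfl)
    rw [hT', hend] at hkey
    simp only [hz]
    simpa using hkey
  · have hv : ((finRotate (n + 1) j : Fin (n + 1)) : ℕ) = (j : ℕ) + 1 := by
      apply coe_finRotate_of_ne_last
      intro h
      apply hj
      rw [h]; simp
    simp only [hv]
    push_cast
    exact hkey

lemma pos_cw (hT : 0 < T) {c : ℝ → ℝ}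
    (hc : IntervalIntegrable c volume 0 T) (hc0 : ∀ t, 0 < c t) (j : Fin (n + 1)) :
    0 < cw T δ n c j := by
  obtain ⟨h0, h1, h2⟩ := cell_le hT j (n := n)
  unfold cw
  refine intervalIntegral.intervalIntegral_pos_of_pos_on ?_ (fun r _ => mul_pos (hc0 r) (Real.exp_pos _)) h1
  refine IntervalIntegrable.mul_continuousOn ?_ (by fun_prop)
  refine hc.mono_set ?_
  rw [uIcc_of_le hT.le, uIcc_of_le h1.le]
  exact Icc_subset_Icc h0 h2

lemma pos_ww (hT : 0 < T) {c : ℝ → ℝ}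
    (hc : IntervalIntegrable c volume 0 T) (hc0 : ∀ t, 0 < c t) (j : Fin (n + 1)) :
    0 < ww T δ n c j := by
  obtain ⟨h0, h1, h2⟩ := cell_le hT j (n := n)
  unfold ww
  refine intervalIntegral.intervalIntegral_pos_of_pos_on ?_ (fun r _ => mul_pos (hc0 r) (Real.exp_pos _)) h1
  refine IntervalIntegrable.mul_continuousOn ?_ (by fun_prop)
  refine hc.mono_set ?_
  rw [uIcc_of_le hT.le, uIcc_of_le h1.le]
  exact Icc_subset_Icc h0 h2

/-- the constant part of the cost -/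
noncomputable def kc (T δ : ℝ) (n : ℕ) (c w : ℝ → ℝ) (j : Fin (n + 1)) : ℝ :=
  ∫ t in ((j : ℕ) * (T / (n + 1)) : ℝ)..(((j : ℕ) + 1) * (T / (n + 1))),
    w t * ∫ r in ((j : ℕ) * (T / (n + 1)) : ℝ)..t, c r * Real.exp (-δ * (t - r))

lemma integrable_wSg {b : ℝ} (hT : 0 < T) (hδ : 0 < δ) (hb : 0 ≤ b) {c w : ℝ → ℝ}
    (hc : IntervalIntegrable c volume 0 T) (hw : IntervalIntegrable w volume 0 T)
    {f : ℝ → ℝ} (hfm : Measurable f) (hf0 : ∀ t, 0 ≤ f t) (hf : ∀ t, f t ≤ b) :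
    IntervalIntegrable (fun t => w t * Sg T δ b c f t) volume 0 T := by
  rw [intervalIntegrable_iff_integrableOn_Ioc_of_le hT.le] at hw ⊢
  refine Integrable.mul_bdd (c := 1 / (1 - Real.exp (-b - δ * T)) *
      (2 * ∫ r in (0 : ℝ)..T, |c r| * Real.exp (b + δ * T))) hw (Sg_meas hT hδ hc hfm hf) ?_
  rw [ae_restrict_iff' measurableSet_Ioc]
  refine Eventually.of_forall fun r hr => ?_
  exact Sg_bound hT hδ hb hc hc.abs (fun t => le_rfl) hfm hf0 hf hr.1.le hr.2

lemma cost_stp (hT : 0 < T) (hδ : 0 < δ) {c w : ℝ → ℝ}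
    (hc : IntervalIntegrable c volume 0 T) (hw : IntervalIntegrable w volume 0 T)
    {ν : Fin (n + 1) → ℝ} (hν : ∀ j, 0 ≤ ν j) :
    ∫ t in (0 : ℝ)..T, w t * Sg T δ (∑ j, ν j) c (stp T n ν) t
      = ∑ j, ww T δ n w j * Sg T δ (∑ j, ν j) c (stp T n ν) ((j : ℕ) * (T / (n + 1)))
        + ∑ j, kc T δ n c w j := by
  have hb : 0 ≤ ∑ j, ν j := Finset.sum_nonneg fun j _ => hν j
  have hh : 0 < T / (n + 1) := by positivity
  set b := ∑ j, ν j with hbdef
  have hI := integrable_wSg hT hδ hb hc hw (stp_meas (T := T) (ν := ν)) (stp_nonneg hν) (stp_le hν)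
  -- split
  have hsplit : ∫ t in (0 : ℝ)..T, w t * Sg T δ b c (stp T n ν) t
      = ∑ k ∈ Finset.range (n + 1), ∫ t in ((k : ℝ) * (T / (n + 1)))..(((k + 1 : ℕ) : ℝ) * (T / (n + 1))),
        w t * Sg T δ b c (stp T n ν) t := by
    have := intervalIntegral.sum_integral_adjacent_intervals (μ := volume)
      (f := fun t => w t * Sg T δ b c (stp T n ν) t)
      (a := fun k : ℕ => (k : ℝ) * (T / (n + 1))) (n := n + 1) (by
        intro k hk
        refine hI.mono_set ?_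
        obtain ⟨h0, h1, h2⟩ := cell_le hT ⟨k, hk⟩ (n := n)
        simp only at h0 h1 h2
        rw [uIcc_of_le hT.le, uIcc_of_le (by push_cast; exact h1.le)]
        push_cast
        exact Icc_subset_Icc h0 h2)
    rw [this]
    congr 1
    · simp
    · push_cast; field_simp
  rw [hsplit, ← Finset.sum_add_distrib, Finset.sum_range]
  refine Finset.sum_congr rfl fun j _ => ?_
  obtain ⟨h0, h1, h2⟩ := cell_le hT j (n := n)
  push_cast
  have hcj : ∀ t, (j : ℕ) * (T / (n + 1)) ≤ t → t < ((j : ℕ) + 1) * (T / (n + 1)) →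
      Sg T δ b c (stp T n ν) t = Real.exp (-δ * (t - (j : ℕ) * (T / (n + 1)))) *
        Sg T δ b c (stp T n ν) ((j : ℕ) * (T / (n + 1)))
        + ∫ r in ((j : ℕ) * (T / (n + 1)) : ℝ)..t, c r * Real.exp (-δ * (t - r)) := by
    intro t ht1 ht2
    have hstep := Sg_step hT hδ hb hc (stp_meas (T := T) (ν := ν)) (stp_le hν) h0 ht1
      (ht2.le.trans h2) (F := psum n ν j) (fun r hr1 hr2 => stp_cell hT hr1.le (hr2.trans ht2))
    rw [stp_cell hT ht1 ht2, stp_cell hT le_rfl h1] at hstep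
    rw [hstep]
    have e2 : Real.exp (-psum n ν j) * Real.exp (psum n ν j) = 1 := by
      rw [← Real.exp_add]; simp
    calc _ = (Real.exp (-psum n ν j) * Real.exp (psum n ν j)) *
          (Real.exp (-δ * (t - (j : ℕ) * (T / (n + 1)))) *
        Sg T δ b c (stp T n ν) ((j : ℕ) * (T / (n + 1)))
        + ∫ r in ((j : ℕ) * (T / (n + 1)) : ℝ)..t, c r * Real.exp (-δ * (t - r))) := by ring
      _ = _ := by rw [e2, one_mul]
  have hcell : Icc ((j : ℕ) * (T / (n + 1)) : ℝ) (((j : ℕ) + 1) * (T / (n + 1))) ⊆ Icc 0 T :=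
    Icc_subset_Icc h0 h2
  have hwj : IntervalIntegrable w volume ((j : ℕ) * (T / (n + 1))) (((j : ℕ) + 1) * (T / (n + 1))) := by
    refine hw.mono_set ?_
    rw [uIcc_of_le hT.le, uIcc_of_le h1.le]
    exact hcell
  have hcj' : IntervalIntegrable c volume ((j : ℕ) * (T / (n + 1))) (((j : ℕ) + 1) * (T / (n + 1))) := by
    refine hc.mono_set ?_
    rw [uIcc_of_le hT.le, uIcc_of_le h1.le]
    exact hcell
  have e0 : ∫ t in ((j : ℕ) * (T / (n + 1)) : ℝ)..(((j : ℕ) + 1) * (T / (n + 1))),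
      w t * Sg T δ b c (stp T n ν) t
      = ∫ t in ((j : ℕ) * (T / (n + 1)) : ℝ)..(((j : ℕ) + 1) * (T / (n + 1))),
      ((w t * Real.exp (-δ * (t - (j : ℕ) * (T / (n + 1))))) *
        Sg T δ b c (stp T n ν) ((j : ℕ) * (T / (n + 1)))
        + w t * ∫ r in ((j : ℕ) * (T / (n + 1)) : ℝ)..t, c r * Real.exp (-δ * (t - r))) := by
    refine intervalIntegral.integral_congr_ae ?_
    have : ∀ᵐ r : ℝ, r ≠ ((j : ℕ) + 1) * (T / (n + 1)) := by
      rw [ae_iff]; simp
    filter_upwards [this] with t ht hmem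
    rw [uIoc_of_le h1.le] at hmem
    rw [hcj t hmem.1.le (lt_of_le_of_ne hmem.2 ht)]
    ring
  rw [e0, intervalIntegral.integral_add, intervalIntegral.integral_mul_const]
  · rfl
  · exact (hwj.mul_continuousOn (by fun_prop)).mul_const _
  · refine hwj.mul_continuousOn ?_
    have hcont : ContinuousOn (fun t => ∫ r in ((j : ℕ) * (T / (n + 1)) : ℝ)..t,
        c r * Real.exp (δ * r)) (uIcc ((j : ℕ) * (T / (n + 1)) : ℝ) (((j : ℕ) + 1) * (T / (n + 1)))) := by
      refine intervalIntegral.continuousOn_primitive_interval' ?_ (by simp)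
      exact hcj'.mul_continuousOn (by fun_prop)
    have h3 : ContinuousOn (fun t => Real.exp (-δ * t) * ∫ r in ((j : ℕ) * (T / (n + 1)) : ℝ)..t,
        c r * Real.exp (δ * r)) (uIcc ((j : ℕ) * (T / (n + 1)) : ℝ) (((j : ℕ) + 1) * (T / (n + 1)))) :=
      ContinuousOn.mul (by fun_prop) hcont
    refine h3.congr fun t _ => ?_
    simp only
    rw [← intervalIntegral.integral_const_mul]
    congr 1
    ext r
    rw [show Real.exp (-δ * t) * (c r * Real.exp (δ * r)) = c r * (Real.exp (-δ * t) * Real.exp (δ * r)) by ring,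
      ← Real.exp_add]
    congr 2
    ring

/-- optimal monotone pairs of step functions -/
lemma exists_opt_pair (hT : 0 < T) (hδ : 0 < δ) {c w : ℝ → ℝ}
    (hc : IntervalIntegrable c volume 0 T) (hw : IntervalIntegrable w volume 0 T)
    (hc0 : ∀ t, 0 < c t) (hw0 : ∀ t, 0 < w t) {b1 b2 : ℝ} (hb1 : 0 < b1) (hb : b1 < b2) (n : ℕ) :
    ∃ ν1 ν2 : Fin (n + 1) → ℝ, (∀ j, 0 ≤ ν1 j) ∧ (∀ j, ν1 j ≤ ν2 j) ∧ ∑ j, ν1 j = b1 ∧
      ∑ j, ν2 j = b2 ∧
      (∀ ν' : Fin (n + 1) → ℝ, (∀ j, 0 ≤ ν' j) → ∑ j, ν' j = b1 →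
        ∫ t in (0 : ℝ)..T, w t * Sg T δ b1 c (stp T n ν1) t
          ≤ ∫ t in (0 : ℝ)..T, w t * Sg T δ b1 c (stp T n ν') t) ∧
      (∀ ν' : Fin (n + 1) → ℝ, (∀ j, 0 ≤ ν' j) → ∑ j, ν' j = b2 →
        ∫ t in (0 : ℝ)..T, w t * Sg T δ b2 c (stp T n ν2) t
          ≤ ∫ t in (0 : ℝ)..T, w t * Sg T δ b2 c (stp T n ν') t) := by
  have hh : 0 < T / (n + 1) := by positivity
  set D := Real.exp (-δ * (T / (n + 1))) with hD
  have hD1 : D < 1 := by
    rw [hD, Real.exp_lt_one_iff]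
    have := mul_pos hδ hh
    linarith
  have hD0 : 0 < D := Real.exp_pos _
  have hcw := pos_cw (n := n) (δ := δ) hT hc hc0
  have hww := pos_ww (n := n) (δ := δ) hT hw hw0
  have hmin : ∀ b, 0 ≤ b → ∃ ν s : Fin (n + 1) → ℝ,
      IsMinD (finRotate (n + 1)) (fun _ => D) (cw T δ n c) (ww T δ n w) b ν s := fun b hb =>
    exists_minD _ _ _ _ D hD1 (fun _ => hD0.le) (fun _ => le_rfl) hcw b hb
  obtain ⟨ν1, s1, h1⟩ := hmin b1 hb1.le
  obtain ⟨ν2, s2, h2⟩ := hmin b2 (hb1.trans hb).le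
  have hcmp : ∀ (b : ℝ) (ν s : Fin (n + 1) → ℝ),
      IsMinD (finRotate (n + 1)) (fun _ => D) (cw T δ n c) (ww T δ n w) b ν s →
      ∀ ν' : Fin (n + 1) → ℝ, (∀ j, 0 ≤ ν' j) → ∑ j, ν' j = b →
        ∫ t in (0 : ℝ)..T, w t * Sg T δ b c (stp T n ν) t
          ≤ ∫ t in (0 : ℝ)..T, w t * Sg T δ b c (stp T n ν') t := by
    intro b ν s h ν' hν' hs'
    have e1 := cost_stp hT hδ hc hw h.nonneg (n := n)
    have e2 := cost_stp hT hδ hc hw hν' (n := n)
    rw [h.sum] at e1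
    rw [hs'] at e2
    rw [e1, e2]
    have q1 := sol_stp hT hδ hc h.nonneg (n := n)
    have q2 := sol_stp hT hδ hc hν' (n := n)
    rw [h.sum] at q1
    rw [hs'] at q2
    have q3 := sol_unique (finRotate (n + 1)) (fun _ => D) (cw T δ n c) D hD1 (fun _ => hD0.le)
      (fun _ => le_rfl) ν s _ h.nonneg h.sol q1
    have q4 := h.min ν' _ hν' hs' q2
    rw [← q3] at q4
    linarith
  exact ⟨ν1, ν2, h1.nonneg, fun j => disc_main hD1 (fun _ => hD0) (fun _ => le_rfl) hcw hww hb1 hb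
    h1 h2 j, h1.sum, h2.sum, hcmp b1 ν1 s1 h1, hcmp b2 ν2 s2 h2⟩

end R261.Eff
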